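import Mathlib

set_option autoImplicit false
set_option linter.unusedSectionVars false

/-!
# Minimum convex partitions of polyhedra in high dimension

For all `k ≥ 2` and `d ≥ k (k + 1) / 2` there are polyhedra in `ℝ^d` with `n` faces all of whose
convex partitions have at least `c n ^ k` pieces.

The polyhedron is a box minus the interiors of a constant times `N` pairwise disjoint thin boxes
(walls), each of them a box in sheared linear coordinates. The coordinates of `ℝ^d` are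
`z_0, ..., z_{k-1}`, one coordinate `y_{ab}` for every pair `a < b`, and idle coordinates. The
test points are `z_b = Z_b(t)`, `y_{ab} = z_a z_b`, where `t` runs over the `N ^ k` vectors of
`k` digits in base `N`, and `Z_b(t)` is an integer of size about `N ^ (b + 1)` which determines
the digits `0, ..., b` of `t`. A wall with pivot `a` and threshold `c` lies in the slab
`|z_a - c| ≤ η`; for `b > a` it lies on one side of, and away from, the hyperplane `y_{ab} = c z_b`,
and for `b < a` it lies near the hyperplane `y_{ba} = c z_b`. This makes the walls pairwise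
disjoint, and the segment between any two test points meets the interior of a wall whose pivot is
the first digit in which the two points differ. Hence every convex set in the polyhedron
contains at most one of the `N ^ k` test points.
-/

open Set

namespace Pool.Agent.Results.MP_a2955b_co.SuperQuadratic

/-- `F` is a convex polytope of dimension `k` in `ℝ^d`: the convex hull of a finite nonempty set
of points, with an affine span of dimension `k`. -/
def IsPolytope {d : ℕ} (k : ℕ) (F : Set (EuclideanSpace ℝ (Fin d))) : Prop :=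
  (∃ V : Finset (EuclideanSpace ℝ (Fin d)), V.Nonempty ∧
    F = convexHull ℝ (V : Set (EuclideanSpace ℝ (Fin d)))) ∧
    Module.finrank ℝ (vectorSpan ℝ F) = k

/-- `P` is a polyhedron in `ℝ^d` with the `n` faces `F 0, ..., F (n - 1)`: it is compact, it is
the closure of its interior, and its boundary is the union of the `(d - 1)`-dimensional convex
polytopes `F i`, any two of which meet only in their relative boundaries. -/
structure IsPolyhedron {d n : ℕ} (P : Set (EuclideanSpace ℝ (Fin d)))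
    (F : Fin n → Set (EuclideanSpace ℝ (Fin d))) : Prop where
  compact : IsCompact P
  regular : closure (interior P) = P
  polytope : ∀ i, IsPolytope (d - 1) (F i)
  boundary : frontier P = ⋃ i, F i
  meet : ∀ i j, i ≠ j →
    F i ∩ F j ⊆ intrinsicFrontier ℝ (F i) ∩ intrinsicFrontier ℝ (F j)

/-- `C 0, ..., C (m - 1)` is a convex partition of `P` of size `m`. -/
structure IsConvexPartition {d m : ℕ} (P : Set (EuclideanSpace ℝ (Fin d)))
    (C : Fin m → Set (EuclideanSpace ℝ (Fin d))) : Prop where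
  polytope : ∀ i, IsPolytope d (C i)
  disjoint : ∀ i j, i ≠ j → Disjoint (interior (C i)) (interior (C j))
  union : ⋃ i, C i = P

/-! ### Boxes in linear coordinates -/

section boxes

variable {d : ℕ} {I : Type} [Fintype I] [DecidableEq I]

theorem Icc_eq_convexHull (lo hi : I → ℝ) (h : ∀ c, lo c ≤ hi c) :
    Icc lo hi = convexHull ℝ (Set.pi univ fun c => ({lo c, hi c} : Set ℝ)) := by
  rw [convexHull_pi, ← Set.pi_univ_Icc]
  congr 1
  ext1 c
  rw [convexHull_pair, segment_eq_Icc (h c)]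

theorem vectorSpan_Icc (lo hi : I → ℝ) (b : I) (hb : lo b = hi b)
    (h : ∀ c, c ≠ b → lo c < hi c) :
    vectorSpan ℝ (Icc lo hi) = LinearMap.ker (LinearMap.proj (R := ℝ) (φ := fun _ : I => ℝ) b) := by
  have hle : lo ≤ hi := by
    intro c
    by_cases hc : c = b
    · subst hc; exact hb.le
    · exact (h c hc).le
  apply le_antisymm
  · rw [vectorSpan_def, Submodule.span_le]
    rintro _ ⟨x, hx, y, hy, rfl⟩
    simp only [vsub_eq_sub, SetLike.mem_coe, LinearMap.mem_ker, LinearMap.proj_apply, Pi.sub_apply]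
    have h1 := hx.1 b
    have h2 := hx.2 b
    have h3 := hy.1 b
    have h4 := hy.2 b
    linarith
  · intro v hv
    simp only [LinearMap.mem_ker, LinearMap.proj_apply] at hv
    rw [pi_eq_sum_univ' v]
    apply Submodule.sum_mem
    intro c _
    by_cases hc : c = b
    · subst hc
      rw [hv, zero_smul]
      exact Submodule.zero_mem _
    · apply Submodule.smul_mem
      have h5 : Function.update lo c (hi c) -ᵥ lo ∈ vectorSpan ℝ (Icc lo hi) := by
        apply vsub_mem_vectorSpan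
        · constructor
          · intro e
            by_cases he : e = c
            · subst he; simpa using hle e
            · simp [he]
          · intro e
            by_cases he : e = c
            · subst he; simp
            · simpa [he] using hle e
        · exact ⟨le_rfl, hle⟩
      have h6 : (Pi.single c (1 : ℝ) : I → ℝ) =
          (hi c - lo c)⁻¹ • (Function.update lo c (hi c) -ᵥ lo) := by
        ext e
        by_cases he : e = c
        · subst he
          have : hi e - lo e ≠ 0 := (sub_pos.2 (h e hc)).ne'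
          simp [this]
        · simp [he]
      have h7 := Submodule.smul_mem _ (hi c - lo c)⁻¹ h5
      rw [← h6] at h7
      exact h7

theorem preimage_eq_image (L : EuclideanSpace ℝ (Fin d) ≃L[ℝ] (I → ℝ)) (s : Set (I → ℝ)) :
    L ⁻¹' s = L.symm '' s := by
  ext x
  constructor
  · intro hx
    exact ⟨L x, hx, by simp⟩
  · rintro ⟨y, hy, rfl⟩
    simpa using hy

theorem box_polytope (L : EuclideanSpace ℝ (Fin d) ≃L[ℝ] (I → ℝ)) (lo hi : I → ℝ)
    (b : I) (hb : lo b = hi b) (h : ∀ c, c ≠ b → lo c < hi c) :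
    IsPolytope (d - 1) (L ⁻¹' Icc lo hi) := by
  classical
  have hle : ∀ c, lo c ≤ hi c := by
    intro c
    by_cases hc : c = b
    · subst hc; exact hb.le
    · exact (h c hc).le
  constructor
  · refine ⟨(Fintype.piFinset fun c => ({lo c, hi c} : Finset ℝ)).image L.symm, ?_, ?_⟩
    · rw [Finset.image_nonempty]
      refine ⟨lo, ?_⟩
      rw [Fintype.mem_piFinset]
      intro c
      simp
    · rw [preimage_eq_image, Icc_eq_convexHull lo hi hle, Finset.coe_image]
      have h1 := (L.symm.toLinearEquiv.toLinearMap).image_convexHull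
        (Set.pi univ fun c => ({lo c, hi c} : Set ℝ))
      have h2 : ((Fintype.piFinset fun c => ({lo c, hi c} : Finset ℝ) : Finset (I → ℝ)) :
          Set (I → ℝ)) = Set.pi univ fun c => ({lo c, hi c} : Set ℝ) := by
        rw [Fintype.coe_piFinset]
        congr 1
        ext1 c
        simp
      rw [h2]
      exact h1
  · rw [preimage_eq_image]
    have h3 : vectorSpan ℝ (L.symm '' Icc lo hi) =
        (vectorSpan ℝ (Icc lo hi)).map (L.symm.toLinearEquiv : (I → ℝ) →ₗ[ℝ] _) := by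
      have := AffineMap.map_vectorSpan
        ((L.symm.toLinearEquiv : (I → ℝ) →ₗ[ℝ] EuclideanSpace ℝ (Fin d)).toAffineMap)
        (s := Icc lo hi)
      simpa using this.symm
    rw [h3, LinearEquiv.finrank_map_eq, vectorSpan_Icc lo hi b hb h]
    have h4 := LinearMap.finrank_range_add_finrank_ker
      (LinearMap.proj (R := ℝ) (φ := fun _ : I => ℝ) b)
    have h5 : LinearMap.range (LinearMap.proj (R := ℝ) (φ := fun _ : I => ℝ) b) = ⊤ :=
      LinearMap.range_eq_top.2 (LinearMap.proj_surjective b)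
    have h6 := L.toLinearEquiv.finrank_eq
    rw [finrank_euclideanSpace, Fintype.card_fin] at h6
    rw [h5, finrank_top, Module.finrank_self, ← h6] at h4
    omega

theorem box_meet (L : EuclideanSpace ℝ (Fin d) ≃L[ℝ] (I → ℝ)) (lo hi lo' hi' : I → ℝ)
    (hle : lo ≤ hi) (c : I) (hc : lo c < hi c) (h : hi' c ≤ lo c ∨ hi c ≤ lo' c) :
    L ⁻¹' Icc lo hi ∩ L ⁻¹' Icc lo' hi' ⊆ intrinsicFrontier ℝ (L ⁻¹' Icc lo hi) := by
  rintro x ⟨hx, hx'⟩
  have hcl : IsClosed (L ⁻¹' Icc lo hi) := isClosed_Icc.preimage L.continuous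
  by_contra hnot
  have h1 : x ∈ intrinsicInterior ℝ (L ⁻¹' Icc lo hi) := by
    have h2 : x ∈ intrinsicClosure ℝ (L ⁻¹' Icc lo hi) := subset_intrinsicClosure hx
    rw [← intrinsicInterior_union_intrinsicFrontier] at h2
    exact h2.resolve_right hnot
  -- the point `y` of the box on the far side
  have key : ∀ y ∈ L ⁻¹' Icc lo hi, ∃ t : ℝ, t < 0 ∧ AffineMap.lineMap x y t ∈ L ⁻¹' Icc lo hi := by
    intro y hy
    rw [mem_intrinsicInterior] at h1
    obtain ⟨x', hx'1, hx'2⟩ := h1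
    have hxs : x ∈ affineSpan ℝ (L ⁻¹' Icc lo hi) := subset_affineSpan ℝ _ hx
    have hys : y ∈ affineSpan ℝ (L ⁻¹' Icc lo hi) := subset_affineSpan ℝ _ hy
    let f : ℝ → affineSpan ℝ (L ⁻¹' Icc lo hi) := fun t =>
      ⟨AffineMap.lineMap x y t, AffineMap.lineMap_mem t hxs hys⟩
    have hf : Continuous f := by
      apply Continuous.subtype_mk
      exact AffineMap.lineMap_continuous
    have hf0 : f 0 = x' := by
      apply Subtype.ext
      simp [f, hx'2]
    have h3 : ∀ᶠ t in nhds (0 : ℝ), f t ∈ interior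
        ((↑) ⁻¹' (L ⁻¹' Icc lo hi) : Set (affineSpan ℝ (L ⁻¹' Icc lo hi))) := by
      apply hf.continuousAt.eventually
      rw [hf0]
      exact isOpen_interior.mem_nhds hx'1
    have h4 : ∀ᶠ t in nhdsWithin (0 : ℝ) (Iio 0), f t ∈ interior
        ((↑) ⁻¹' (L ⁻¹' Icc lo hi) : Set (affineSpan ℝ (L ⁻¹' Icc lo hi))) :=
      h3.filter_mono nhdsWithin_le_nhds
    have h5 : ∀ᶠ t in nhdsWithin (0 : ℝ) (Iio 0), t < 0 := eventually_mem_nhdsWithin
    obtain ⟨t, ht1, ht2⟩ := (h4.and h5).exists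
    have ht3 := interior_subset ht1
    exact ⟨t, ht2, ht3⟩
  have hlin : ∀ (y : EuclideanSpace ℝ (Fin d)) (t : ℝ),
      L (AffineMap.lineMap x y t) c = L x c + t * (L y c - L x c) := by
    intro y t
    rw [AffineMap.lineMap_apply]
    simp only [vsub_eq_sub, vadd_eq_add, map_add, map_smul, map_sub, Pi.add_apply, Pi.smul_apply,
      Pi.sub_apply, smul_eq_mul]
    ring
  have hx1 := hx.1 c
  have hx2 := hx.2 c
  have hx3 := hx'.1 c
  have hx4 := hx'.2 c
  rcases h with h | h
  · -- `L x c = lo c`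
    obtain ⟨t, ht, hmem⟩ := key (L.symm hi) (by simp [hle])
    have h6 := hmem.1 c
    rw [hlin] at h6
    simp only [ContinuousLinearEquiv.apply_symm_apply] at h6
    nlinarith
  · obtain ⟨t, ht, hmem⟩ := key (L.symm lo) (by simp [hle])
    have h6 := hmem.2 c
    rw [hlin] at h6
    simp only [ContinuousLinearEquiv.apply_symm_apply] at h6
    nlinarith

theorem interior_box (L : EuclideanSpace ℝ (Fin d) ≃L[ℝ] (I → ℝ)) (lo hi : I → ℝ) :
    interior (L ⁻¹' Icc lo hi) = {x | ∀ c, lo c < L x c ∧ L x c < hi c} := by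
  have h1 : interior (L ⁻¹' Icc lo hi) = L ⁻¹' interior (Icc lo hi) :=
    (L.toHomeomorph.preimage_interior (Icc lo hi)).symm
  rw [h1, ← Set.pi_univ_Icc, interior_pi_set finite_univ]
  ext x
  simp [Set.mem_pi]

theorem closure_interior_box (L : EuclideanSpace ℝ (Fin d) ≃L[ℝ] (I → ℝ)) (lo hi : I → ℝ)
    (h : ∀ c, lo c < hi c) :
    closure (interior (L ⁻¹' Icc lo hi)) = L ⁻¹' Icc lo hi := by
  have h1 : interior (L ⁻¹' Icc lo hi) = L ⁻¹' interior (Icc lo hi) :=
    (L.toHomeomorph.preimage_interior (Icc lo hi)).symm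
  have h2 : closure (L ⁻¹' interior (Icc lo hi)) = L ⁻¹' closure (interior (Icc lo hi)) :=
    (L.toHomeomorph.preimage_closure _).symm
  rw [h1, h2, ← Set.pi_univ_Icc, interior_pi_set finite_univ, closure_pi_set]
  congr 2
  ext1 c
  rw [interior_Icc, closure_Ioo (h c).ne]

theorem compact_box (L : EuclideanSpace ℝ (Fin d) ≃L[ℝ] (I → ℝ)) (lo hi : I → ℝ) :
    IsCompact (L ⁻¹' Icc lo hi) :=
  L.toHomeomorph.isCompact_preimage.2 isCompact_Icc

/-- The value of the coordinate `p.1` on the facet `p`. -/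
def facetVal (lo hi : I → ℝ) (p : I × Bool) : ℝ := if p.2 then hi p.1 else lo p.1

/-- The facets of a box. -/
def facet (L : EuclideanSpace ℝ (Fin d) ≃L[ℝ] (I → ℝ)) (lo hi : I → ℝ)
    (p : I × Bool) : Set (EuclideanSpace ℝ (Fin d)) :=
  L ⁻¹' Icc (Function.update lo p.1 (facetVal lo hi p)) (Function.update hi p.1 (facetVal lo hi p))

theorem facetVal_mem (lo hi : I → ℝ) (h : ∀ c, lo c < hi c) (p : I × Bool) :
    lo p.1 ≤ facetVal lo hi p ∧ facetVal lo hi p ≤ hi p.1 := by
  unfold facetVal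
  split_ifs
  · exact ⟨(h _).le, le_rfl⟩
  · exact ⟨le_rfl, (h _).le⟩

theorem mem_facet (L : EuclideanSpace ℝ (Fin d) ≃L[ℝ] (I → ℝ)) (lo hi : I → ℝ)
    (h : ∀ c, lo c < hi c) (p : I × Bool) (x : EuclideanSpace ℝ (Fin d)) :
    x ∈ facet L lo hi p ↔ L x ∈ Icc lo hi ∧ L x p.1 = facetVal lo hi p := by
  have hv := facetVal_mem lo hi h p
  unfold facet
  constructor
  · rintro ⟨h1, h2⟩
    have h3 : L x p.1 = facetVal lo hi p := by
      have h4 := h1 p.1
      have h5 := h2 p.1
      simp only [Function.update_self] at h4 h5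
      exact le_antisymm h5 h4
    refine ⟨⟨?_, ?_⟩, h3⟩
    · intro c
      by_cases hc : c = p.1
      · subst hc; rw [h3]; exact hv.1
      · have := h1 c
        simpa [hc] using this
    · intro c
      by_cases hc : c = p.1
      · subst hc; rw [h3]; exact hv.2
      · have := h2 c
        simpa [hc] using this
  · rintro ⟨⟨h1, h2⟩, h3⟩
    constructor
    · intro c
      by_cases hc : c = p.1
      · subst hc; simp [h3]
      · simpa [hc] using h1 c
    · intro c
      by_cases hc : c = p.1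
      · subst hc; simp [h3]
      · simpa [hc] using h2 c

theorem facet_polytope (L : EuclideanSpace ℝ (Fin d) ≃L[ℝ] (I → ℝ)) (lo hi : I → ℝ)
    (h : ∀ c, lo c < hi c) (p : I × Bool) : IsPolytope (d - 1) (facet L lo hi p) := by
  apply box_polytope L _ _ p.1
  · simp
  · intro c hc
    simpa [hc] using h c

theorem frontier_box (L : EuclideanSpace ℝ (Fin d) ≃L[ℝ] (I → ℝ)) (lo hi : I → ℝ)
    (h : ∀ c, lo c < hi c) :
    frontier (L ⁻¹' Icc lo hi) = ⋃ p, facet L lo hi p := by
  have hcl : IsClosed (L ⁻¹' Icc lo hi) := isClosed_Icc.preimage L.continuous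
  rw [hcl.frontier_eq, interior_box]
  ext x
  simp only [mem_sdiff, mem_ofPred_eq, mem_iUnion, mem_facet L lo hi h]
  constructor
  · rintro ⟨h1, h2⟩
    push Not at h2
    obtain ⟨c, hc⟩ := h2
    have h3 := h1.1 c
    have h4 := h1.2 c
    rcases h3.lt_or_eq with h5 | h5
    · refine ⟨(c, true), h1, ?_⟩
      simp only [facetVal, if_true]
      exact le_antisymm h4 (hc h5)
    · refine ⟨(c, false), h1, ?_⟩
      simp only [facetVal]
      simpa using h5.symm
  · rintro ⟨p, h1, h2⟩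
    refine ⟨h1, ?_⟩
    intro h3
    have h4 := h3 p.1
    rw [h2] at h4
    unfold facetVal at h4
    split_ifs at h4
    · exact lt_irrefl _ h4.2
    · exact lt_irrefl _ h4.1

theorem facet_meet (L : EuclideanSpace ℝ (Fin d) ≃L[ℝ] (I → ℝ)) (lo hi : I → ℝ)
    (h : ∀ c, lo c < hi c) (p q : I × Bool) (hpq : p ≠ q) :
    facet L lo hi p ∩ facet L lo hi q ⊆ intrinsicFrontier ℝ (facet L lo hi p) := by
  by_cases h1 : p.1 = q.1
  · rintro x ⟨hx, hx'⟩
    exfalso
    rw [mem_facet L lo hi h] at hx hx'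
    have h2 : p.2 ≠ q.2 := fun h2 => hpq (Prod.ext h1 h2)
    have h3 : facetVal lo hi p = facetVal lo hi q := by
      rw [← hx.2, ← hx'.2, h1]
    have h4 := h q.1
    unfold facetVal at h3
    rw [h1] at h3
    cases hp : p.2 <;> cases hq : q.2 <;> rw [hp, hq] at h2 h3 <;> simp at h2 h3 <;> linarith
  · apply box_meet L _ _ _ _ _ q.1
    · have h2 : q.1 ≠ p.1 := fun h2 => h1 h2.symm
      simpa [h2] using h q.1
    · have h2 : q.1 ≠ p.1 := fun h2 => h1 h2.symm
      simp only [Function.update_self, Function.update_of_ne h2]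
      unfold facetVal
      split_ifs
      · right; exact le_rfl
      · left; exact le_rfl
    · intro c
      by_cases hc : c = p.1
      · subst hc; simp
      · simpa [hc] using (h c).le

/-- Cutting points of the slices. -/
noncomputable def cutPt (u v : ℝ) (e s : ℕ) : ℝ := u + s / (e + 1) * (v - u)

theorem cutPt_zero (u v : ℝ) (e : ℕ) : cutPt u v e 0 = u := by simp [cutPt]

theorem cutPt_last (u v : ℝ) (e : ℕ) : cutPt u v e (e + 1) = v := by
  unfold cutPt
  have : (e : ℝ) + 1 ≠ 0 := by positivity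
  push_cast
  rw [div_self this]
  ring

theorem cutPt_lt (u v : ℝ) (huv : u < v) (e s t : ℕ) (h : s < t) :
    cutPt u v e s < cutPt u v e t := by
  unfold cutPt
  have h1 : (s : ℝ) < t := by exact_mod_cast h
  have h2 : (0 : ℝ) < e + 1 := by positivity
  have h3 : (s : ℝ) / (e + 1) < t / (e + 1) := div_lt_div_of_pos_right h1 h2
  nlinarith

theorem cutPt_le (u v : ℝ) (huv : u < v) (e s t : ℕ) (h : s ≤ t) :
    cutPt u v e s ≤ cutPt u v e t := by
  rcases h.lt_or_eq with h | h
  · exact (cutPt_lt u v huv e s t h).le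
  · rw [h]

/-- The slices of the facet `(b₀, false)` of a box. -/
noncomputable def slice (L : EuclideanSpace ℝ (Fin d) ≃L[ℝ] (I → ℝ)) (lo hi : I → ℝ)
    (b₀ b₁ : I) (e s : ℕ) : Set (EuclideanSpace ℝ (Fin d)) :=
  L ⁻¹' Icc (Function.update lo b₁ (cutPt (lo b₁) (hi b₁) e s))
    (Function.update (Function.update hi b₀ (lo b₀)) b₁ (cutPt (lo b₁) (hi b₁) e (s + 1)))

theorem mem_slice (L : EuclideanSpace ℝ (Fin d) ≃L[ℝ] (I → ℝ)) (lo hi : I → ℝ)
    (h : ∀ c, lo c < hi c) (b₀ b₁ : I) (hb : b₀ ≠ b₁) (e s : ℕ) (hs : s ≤ e)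
    (x : EuclideanSpace ℝ (Fin d)) :
    x ∈ slice L lo hi b₀ b₁ e s ↔ L x ∈ Icc lo hi ∧ L x b₀ = lo b₀ ∧
      cutPt (lo b₁) (hi b₁) e s ≤ L x b₁ ∧ L x b₁ ≤ cutPt (lo b₁) (hi b₁) e (s + 1) := by
  have hc0 : lo b₁ ≤ cutPt (lo b₁) (hi b₁) e s := by
    have := cutPt_le (lo b₁) (hi b₁) (h b₁) e 0 s (Nat.zero_le _)
    rwa [cutPt_zero] at this
  have hc1 : cutPt (lo b₁) (hi b₁) e (s + 1) ≤ hi b₁ := by
    have := cutPt_le (lo b₁) (hi b₁) (h b₁) e (s + 1) (e + 1) (by omega)
    rwa [cutPt_last] at this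
  unfold slice
  constructor
  · rintro ⟨h1, h2⟩
    have e1 := h1 b₁
    have e2 := h2 b₁
    have e3 := h1 b₀
    have e4 := h2 b₀
    simp only [Function.update_self, Function.update_of_ne hb] at e1 e2 e3 e4
    refine ⟨⟨?_, ?_⟩, le_antisymm e4 e3, e1, e2⟩
    · intro c
      by_cases hc : c = b₁
      · subst hc; exact hc0.trans e1
      · simpa [hc] using h1 c
    · intro c
      by_cases hc : c = b₁
      · subst hc; exact e2.trans hc1
      · by_cases hc' : c = b₀
        · subst hc'; exact e4.trans (h c).le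
        · simpa [hc, hc'] using h2 c
  · rintro ⟨⟨h1, h2⟩, h3, h4, h5⟩
    constructor
    · intro c
      by_cases hc : c = b₁
      · subst hc; simpa using h4
      · simpa [hc] using h1 c
    · intro c
      by_cases hc : c = b₁
      · subst hc; simpa using h5
      · by_cases hc' : c = b₀
        · subst hc'; simp [hb, h3]
        · simpa [hc, hc'] using h2 c

theorem slice_polytope (L : EuclideanSpace ℝ (Fin d) ≃L[ℝ] (I → ℝ)) (lo hi : I → ℝ)
    (h : ∀ c, lo c < hi c) (b₀ b₁ : I) (hb : b₀ ≠ b₁) (e s : ℕ) :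
    IsPolytope (d - 1) (slice L lo hi b₀ b₁ e s) := by
  apply box_polytope L _ _ b₀
  · simp [hb]
  · intro c hc
    by_cases hc1 : c = b₁
    · subst hc1
      simpa using cutPt_lt (lo c) (hi c) (h c) e s (s + 1) (Nat.lt_succ_self s)
    · simpa [hc, hc1] using h c

theorem exists_slice (L : EuclideanSpace ℝ (Fin d) ≃L[ℝ] (I → ℝ)) (lo hi : I → ℝ)
    (h : ∀ c, lo c < hi c) (b₀ b₁ : I) (hb : b₀ ≠ b₁) (e : ℕ)
    (x : EuclideanSpace ℝ (Fin d)) (hx : x ∈ facet L lo hi (b₀, false)) :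
    ∃ s : Fin (e + 1), x ∈ slice L lo hi b₀ b₁ e s := by
  classical
  rw [mem_facet L lo hi h] at hx
  obtain ⟨h1, h2⟩ := hx
  have hex : ∃ s, L x b₁ ≤ cutPt (lo b₁) (hi b₁) e (s + 1) := by
    refine ⟨e, ?_⟩
    rw [cutPt_last]
    exact h1.2 b₁
  have h3 := Nat.find_spec hex
  have h4 : Nat.find hex ≤ e := by
    apply Nat.find_min'
    rw [cutPt_last]
    exact h1.2 b₁
  refine ⟨⟨Nat.find hex, by omega⟩, ?_⟩
  rw [mem_slice L lo hi h b₀ b₁ hb e _ h4]
  refine ⟨h1, by simpa [facetVal] using h2, ?_, h3⟩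
  rcases Nat.eq_zero_or_pos (Nat.find hex) with h5 | h5
  · rw [h5, cutPt_zero]; exact h1.1 b₁
  · have h6 := Nat.find_min hex (Nat.sub_lt h5 Nat.one_pos)
    rw [not_le, Nat.sub_add_cancel h5] at h6
    exact h6.le

theorem slice_nonempty_le (lo hi : I → ℝ)
    (h : ∀ c, lo c < hi c) (b₀ b₁ : I) (hb : b₀ ≠ b₁) (e s : ℕ) :
    Function.update lo b₁ (cutPt (lo b₁) (hi b₁) e s) ≤
      Function.update (Function.update hi b₀ (lo b₀)) b₁ (cutPt (lo b₁) (hi b₁) e (s + 1)) := by
  intro c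
  by_cases hc1 : c = b₁
  · subst hc1
    simpa using (cutPt_lt (lo c) (hi c) (h c) e s (s + 1) (Nat.lt_succ_self s)).le
  · by_cases hc : c = b₀
    · subst hc
      simp [hc1]
    · simpa [hc, hc1] using (h c).le

theorem slice_meet_slice (L : EuclideanSpace ℝ (Fin d) ≃L[ℝ] (I → ℝ)) (lo hi : I → ℝ)
    (h : ∀ c, lo c < hi c) (b₀ b₁ : I) (hb : b₀ ≠ b₁) (e s t : ℕ) (hst : s ≠ t) :
    slice L lo hi b₀ b₁ e s ∩ slice L lo hi b₀ b₁ e t ⊆
      intrinsicFrontier ℝ (slice L lo hi b₀ b₁ e s) := by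
  apply box_meet L _ _ _ _ (slice_nonempty_le lo hi h b₀ b₁ hb e s) b₁
  · simpa using cutPt_lt (lo b₁) (hi b₁) (h b₁) e s (s + 1) (Nat.lt_succ_self s)
  · simp only [Function.update_self]
    rcases lt_or_gt_of_ne hst with h1 | h1
    · right
      exact cutPt_le _ _ (h b₁) e _ _ h1
    · left
      exact cutPt_le _ _ (h b₁) e _ _ h1

theorem slice_meet_facet (L : EuclideanSpace ℝ (Fin d) ≃L[ℝ] (I → ℝ)) (lo hi : I → ℝ)
    (h : ∀ c, lo c < hi c) (b₀ b₁ : I) (hb : b₀ ≠ b₁) (e s : ℕ) (hs : s ≤ e)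
    (p : I × Bool) (hp : p ≠ (b₀, false)) :
    slice L lo hi b₀ b₁ e s ∩ facet L lo hi p ⊆
      intrinsicFrontier ℝ (slice L lo hi b₀ b₁ e s) ∩ intrinsicFrontier ℝ (facet L lo hi p) := by
  by_cases h0 : p.1 = b₀
  · rintro x ⟨hx, hx'⟩
    exfalso
    rw [mem_slice L lo hi h b₀ b₁ hb e s hs] at hx
    rw [mem_facet L lo hi h] at hx'
    have h2 : p.2 = true := by
      cases h3 : p.2
      · exact absurd (Prod.ext h0 h3) hp
      · rfl
    have h3 := hx'.2
    unfold facetVal at h3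
    rw [h2, h0] at h3
    simp only [if_true] at h3
    have h4 := hx.2.1
    have h5 := h b₀
    linarith
  · have hc0 : lo b₁ ≤ cutPt (lo b₁) (hi b₁) e s := by
      have := cutPt_le (lo b₁) (hi b₁) (h b₁) e 0 s (Nat.zero_le _)
      rwa [cutPt_zero] at this
    have hc1 : cutPt (lo b₁) (hi b₁) e (s + 1) ≤ hi b₁ := by
      have := cutPt_le (lo b₁) (hi b₁) (h b₁) e (s + 1) (e + 1) (by omega)
      rwa [cutPt_last] at this
    apply subset_inter
    · apply box_meet L _ _ _ _ (slice_nonempty_le lo hi h b₀ b₁ hb e s) p.1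
      · by_cases h1 : p.1 = b₁
        · rw [h1]
          simpa using cutPt_lt (lo b₁) (hi b₁) (h b₁) e s (s + 1) (Nat.lt_succ_self s)
        · simpa [h0, h1] using h p.1
      · by_cases h1 : p.1 = b₁
        · rw [h1]
          simp only [Function.update_self]
          unfold facetVal
          split_ifs
          · right; rw [h1]; exact hc1
          · left; rw [h1]; exact hc0
        · simp only [Function.update_self, Function.update_of_ne h1, Function.update_of_ne h0]
          unfold facetVal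
          split_ifs
          · right; exact le_rfl
          · left; exact le_rfl
    · rw [inter_comm]
      apply box_meet L _ _ _ _ _ b₀
      · have h2 : b₀ ≠ p.1 := fun h2 => h0 h2.symm
        simpa [h2] using h b₀
      · left
        have h2 : b₀ ≠ p.1 := fun h2 => h0 h2.symm
        simp [h2, hb]
      · intro c
        by_cases hc : c = p.1
        · subst hc; simp
        · simpa [hc] using (h c).le

end boxes

/-! ### The complement of disjoint boxes in a box -/

section topo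

variable {X : Type} [TopologicalSpace X] {ι : Type} [Finite ι]

theorem interior_holes {O : Set X} {W : ι → Set X} (hW : ∀ i, IsClosed (W i))
    (hWr : ∀ i, closure (interior (W i)) = W i) :
    interior (O \ ⋃ i, interior (W i)) = interior O \ ⋃ i, W i := by
  apply Subset.antisymm
  · intro x hx
    refine ⟨interior_mono sdiff_subset hx, ?_⟩
    intro h
    obtain ⟨i, hi⟩ := mem_iUnion.1 h
    rw [← hWr i, mem_closure_iff] at hi
    obtain ⟨y, hy1, hy2⟩ := hi _ isOpen_interior hx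
    have hy3 := interior_subset hy1
    exact hy3.2 (mem_iUnion.2 ⟨i, hy2⟩)
  · apply interior_maximal
    · rintro x ⟨h1, h2⟩
      refine ⟨interior_subset h1, ?_⟩
      intro h3
      obtain ⟨i, hi⟩ := mem_iUnion.1 h3
      exact h2 (mem_iUnion.2 ⟨i, interior_subset hi⟩)
    · exact isOpen_interior.sdiff (isClosed_iUnion_of_finite hW)

theorem regular_holes {O : Set X} {W : ι → Set X} (hO : IsClosed O)
    (hOr : closure (interior O) = O) (hW : ∀ i, IsClosed (W i))
    (hWr : ∀ i, closure (interior (W i)) = W i)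
    (hdisj : ∀ i j, i ≠ j → Disjoint (W i) (W j)) (hsub : ∀ i, W i ⊆ interior O) :
    closure (interior (O \ ⋃ i, interior (W i))) = O \ ⋃ i, interior (W i) := by
  rw [interior_holes hW hWr]
  apply Subset.antisymm
  · apply closure_minimal
    · rintro x ⟨h1, h2⟩
      refine ⟨interior_subset h1, ?_⟩
      intro h3
      obtain ⟨i, hi⟩ := mem_iUnion.1 h3
      exact h2 (mem_iUnion.2 ⟨i, interior_subset hi⟩)
    · exact hO.sdiff (isOpen_iUnion fun i => isOpen_interior)
  · rintro x ⟨hx, hx'⟩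
    by_cases h : x ∈ ⋃ i, W i
    · obtain ⟨i, hi⟩ := mem_iUnion.1 h
      have h1 : x ∈ closure (W i)ᶜ := by
        rw [closure_compl]
        intro h2
        exact hx' (mem_iUnion.2 ⟨i, h2⟩)
      have hG : IsOpen (interior O \ ⋃ j : {j // j ≠ i}, W j) :=
        isOpen_interior.sdiff (isClosed_iUnion_of_finite fun j => hW j)
      have hxG : x ∈ interior O \ ⋃ j : {j // j ≠ i}, W j := by
        refine ⟨hsub i hi, ?_⟩
        intro h2
        obtain ⟨j, hj⟩ := mem_iUnion.1 h2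
        exact (hdisj j i j.2).le_bot ⟨hj, hi⟩
      have h3 := hG.inter_closure ⟨hxG, h1⟩
      refine closure_mono ?_ h3
      rintro y ⟨⟨hy1, hy2⟩, hy3⟩
      refine ⟨hy1, ?_⟩
      intro hy4
      obtain ⟨j, hj⟩ := mem_iUnion.1 hy4
      by_cases hji : j = i
      · subst hji; exact hy3 hj
      · exact hy2 (mem_iUnion.2 ⟨⟨j, hji⟩, hj⟩)
    · have hG : IsOpen (⋃ i, W i)ᶜ := (isClosed_iUnion_of_finite hW).isOpen_compl
      have h1 : x ∈ closure (interior O) := by rw [hOr]; exact hx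
      have h3 := hG.inter_closure ⟨h, h1⟩
      refine closure_mono ?_ h3
      rintro y ⟨hy1, hy2⟩
      exact ⟨hy2, hy1⟩

theorem frontier_holes {O : Set X} {W : ι → Set X} (hO : IsClosed O)
    (hW : ∀ i, IsClosed (W i))
    (hWr : ∀ i, closure (interior (W i)) = W i)
    (hdisj : ∀ i j, i ≠ j → Disjoint (W i) (W j)) (hsub : ∀ i, W i ⊆ interior O) :
    frontier (O \ ⋃ i, interior (W i)) = (⋃ i, frontier (W i)) ∪ frontier O := by
  have hcl : IsClosed (O \ ⋃ i, interior (W i)) :=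
    hO.sdiff (isOpen_iUnion fun i => isOpen_interior)
  rw [hcl.frontier_eq, interior_holes hW hWr, hO.frontier_eq]
  ext x
  constructor
  · rintro ⟨⟨h1, h2⟩, h3⟩
    by_cases h : x ∈ ⋃ i, W i
    · obtain ⟨i, hi⟩ := mem_iUnion.1 h
      left
      refine mem_iUnion.2 ⟨i, ?_⟩
      rw [(hW i).frontier_eq]
      exact ⟨hi, fun h4 => h2 (mem_iUnion.2 ⟨i, h4⟩)⟩
    · right
      exact ⟨h1, fun h4 => h3 ⟨h4, h⟩⟩
  · rintro (h | ⟨h1, h2⟩)
    · obtain ⟨i, hi⟩ := mem_iUnion.1 h
      rw [(hW i).frontier_eq] at hi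
      refine ⟨⟨interior_subset (hsub i hi.1), ?_⟩, ?_⟩
      · intro h4
        obtain ⟨j, hj⟩ := mem_iUnion.1 h4
        by_cases hji : j = i
        · subst hji; exact hi.2 hj
        · exact (hdisj j i hji).le_bot ⟨interior_subset hj, hi.1⟩
      · intro h4
        exact h4.2 (mem_iUnion.2 ⟨i, hi.1⟩)
    · refine ⟨⟨h1, ?_⟩, ?_⟩
      · intro h4
        obtain ⟨j, hj⟩ := mem_iUnion.1 h4
        exact h2 (hsub j (interior_subset hj))
      · intro h4
        exact h2 h4.1

end topo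

/-- A box minus the interiors of finitely many disjoint boxes is a polyhedron. The boxes may be
boxes in different linear coordinates. One facet of the outer box is cut into `e + 1` slices. -/
theorem polyhedron_of_boxes {d : ℕ} {I : Type} [Fintype I] [DecidableEq I]
    (hI : Fintype.card I = d) (b₀ b₁ : I) (hb : b₀ ≠ b₁) {ι : Type} [Fintype ι]
    (L₀ : EuclideanSpace ℝ (Fin d) ≃L[ℝ] (I → ℝ)) (lo₀ hi₀ : I → ℝ)
    (h₀ : ∀ c, lo₀ c < hi₀ c)
    (L : ι → EuclideanSpace ℝ (Fin d) ≃L[ℝ] (I → ℝ)) (lo hi : ι → I → ℝ)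
    (h : ∀ i c, lo i c < hi i c)
    (hdisj : ∀ i j, i ≠ j → Disjoint (L i ⁻¹' Icc (lo i) (hi i)) (L j ⁻¹' Icc (lo j) (hi j)))
    (hsub : ∀ i, L i ⁻¹' Icc (lo i) (hi i) ⊆ interior (L₀ ⁻¹' Icc lo₀ hi₀))
    (n e : ℕ) (hn : n = 2 * d * Fintype.card ι + 2 * d + e) :
    ∃ F : Fin n → Set (EuclideanSpace ℝ (Fin d)), IsPolyhedron
      (L₀ ⁻¹' Icc lo₀ hi₀ \ ⋃ i, interior (L i ⁻¹' Icc (lo i) (hi i))) F := by
  classical
  have hO : IsClosed (L₀ ⁻¹' Icc lo₀ hi₀) := (compact_box L₀ lo₀ hi₀).isClosed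
  have hW : ∀ i, IsClosed (L i ⁻¹' Icc (lo i) (hi i)) :=
    fun i => (compact_box (L i) (lo i) (hi i)).isClosed
  have hWr := fun i => closure_interior_box (L i) (lo i) (hi i) (h i)
  have hOr := closure_interior_box L₀ lo₀ hi₀ h₀
  -- the index type of the faces
  let Φ := (ι × (I × Bool)) ⊕ ({p : I × Bool // p ≠ (b₀, false)} ⊕ Fin (e + 1))
  let G : Φ → Set (EuclideanSpace ℝ (Fin d)) :=
    Sum.elim (fun q => facet (L q.1) (lo q.1) (hi q.1) q.2)
      (Sum.elim (fun p => facet L₀ lo₀ hi₀ p.1) (fun s => slice L₀ lo₀ hi₀ b₀ b₁ e s))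
  have hcard : Fintype.card Φ = n := by
    have h1 : Fintype.card {p : I × Bool // p ≠ (b₀, false)} = 2 * d - 1 := by
      rw [Fintype.card_subtype_compl, Fintype.card_subtype_eq]
      simp [mul_comm, hI]
    have h2 : 0 < d := by
      rw [← hI]
      exact Fintype.card_pos_iff.2 ⟨b₀⟩
    simp only [Φ, Fintype.card_sum, Fintype.card_prod, Fintype.card_fin, Fintype.card_bool, h1, hI]
    rw [hn]
    have h3 : 2 * d * Fintype.card ι = Fintype.card ι * (d * 2) := by ring
    omega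
  have hout : ∀ x, x ∈ frontier (L₀ ⁻¹' Icc lo₀ hi₀) → ∀ i, x ∉ L i ⁻¹' Icc (lo i) (hi i) := by
    intro x hx i hi
    rw [hO.frontier_eq] at hx
    exact hx.2 (hsub i hi)
  have hGin : ∀ q : ι × (I × Bool), G (Sum.inl q) ⊆ L q.1 ⁻¹' Icc (lo q.1) (hi q.1) := by
    intro q x hx
    exact ((mem_facet (L q.1) (lo q.1) (hi q.1) (h q.1) q.2 x).1 hx).1
  have hGout : ∀ q, G (Sum.inr q) ⊆ frontier (L₀ ⁻¹' Icc lo₀ hi₀) := by
    intro q x hx
    rw [frontier_box L₀ lo₀ hi₀ h₀]
    rcases q with p | s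
    · exact mem_iUnion.2 ⟨p.1, hx⟩
    · refine mem_iUnion.2 ⟨(b₀, false), ?_⟩
      rw [mem_facet L₀ lo₀ hi₀ h₀]
      have hx' := (mem_slice L₀ lo₀ hi₀ h₀ b₀ b₁ hb e s (by omega) x).1 hx
      exact ⟨hx'.1, by simpa [facetVal] using hx'.2.1⟩
  have hmeet : ∀ a b : Φ, a ≠ b → G a ∩ G b ⊆ intrinsicFrontier ℝ (G a) := by
    intro a b hab
    rcases a with a | a
    · rcases b with b | b
      · by_cases h1 : a.1 = b.1
        · obtain ⟨i, p⟩ := a
          obtain ⟨j, q⟩ := b
          simp only at h1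
          subst h1
          have hpq : p ≠ q := fun hpq => hab (by rw [hpq])
          exact facet_meet (L i) (lo i) (hi i) (h i) p q hpq
        · rintro x ⟨hx, hx'⟩
          exact ((hdisj a.1 b.1 h1).le_bot ⟨hGin a hx, hGin b hx'⟩).elim
      · rintro x ⟨hx, hx'⟩
        exact (hout x (hGout b hx') a.1 (hGin a hx)).elim
    · rcases b with b | b
      · rintro x ⟨hx, hx'⟩
        exact (hout x (hGout a hx) b.1 (hGin b hx')).elim
      · rcases a with p | s
        · rcases b with q | t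
          · have hpq : p.1 ≠ q.1 := fun hpq => hab (by rw [Subtype.ext hpq])
            exact facet_meet L₀ lo₀ hi₀ h₀ p.1 q.1 hpq
          · have h1 := slice_meet_facet L₀ lo₀ hi₀ h₀ b₀ b₁ hb e t (by omega) p.1 p.2
            rintro x ⟨hx, hx'⟩
            exact (h1 ⟨hx', hx⟩).2
        · rcases b with q | t
          · have h1 := slice_meet_facet L₀ lo₀ hi₀ h₀ b₀ b₁ hb e s (by omega) q.1 q.2
            rintro x ⟨hx, hx'⟩
            exact (h1 ⟨hx, hx'⟩).1
          · have hst : (s : ℕ) ≠ t := by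
              intro hst
              exact hab (by rw [Fin.ext hst])
            exact slice_meet_slice L₀ lo₀ hi₀ h₀ b₀ b₁ hb e s t hst
  let ε := Fintype.equivFinOfCardEq hcard
  refine ⟨fun i => G (ε.symm i), ?_, ?_, ?_, ?_, ?_⟩
  · exact (compact_box L₀ lo₀ hi₀).of_isClosed_subset
      (hO.sdiff (isOpen_iUnion fun i => isOpen_interior)) sdiff_subset
  · exact regular_holes hO hOr hW hWr hdisj hsub
  · intro i
    rcases ε.symm i with q | p | s
    · exact facet_polytope (L q.1) (lo q.1) (hi q.1) (h q.1) q.2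
    · exact facet_polytope L₀ lo₀ hi₀ h₀ p.1
    · exact slice_polytope L₀ lo₀ hi₀ h₀ b₀ b₁ hb e s
  · rw [frontier_holes hO hW hWr hdisj hsub]
    have h1 : (⋃ i, G (ε.symm i)) = ⋃ a, G a := ε.symm.surjective.iUnion_comp G
    rw [h1]
    apply Subset.antisymm
    · rintro x (hx | hx)
      · obtain ⟨i, hi'⟩ := mem_iUnion.1 hx
        rw [frontier_box (L i) (lo i) (hi i) (h i)] at hi'
        obtain ⟨p, hp⟩ := mem_iUnion.1 hi'
        exact mem_iUnion.2 ⟨Sum.inl (i, p), hp⟩
      · have hx0 := hx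
        rw [frontier_box L₀ lo₀ hi₀ h₀] at hx
        obtain ⟨p, hp⟩ := mem_iUnion.1 hx
        by_cases hpb : p = (b₀, false)
        · subst hpb
          obtain ⟨s, hs⟩ := exists_slice L₀ lo₀ hi₀ h₀ b₀ b₁ hb e x hp
          exact mem_iUnion.2 ⟨Sum.inr (Sum.inr s), hs⟩
        · exact mem_iUnion.2 ⟨Sum.inr (Sum.inl ⟨p, hpb⟩), hp⟩
    · intro x hx
      obtain ⟨a, ha⟩ := mem_iUnion.1 hx
      rcases a with a | a
      · left
        refine mem_iUnion.2 ⟨a.1, ?_⟩
        rw [frontier_box (L a.1) (lo a.1) (hi a.1) (h a.1)]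
        exact mem_iUnion.2 ⟨a.2, ha⟩
      · right
        exact hGout a ha
  · intro i j hij
    have hne : ε.symm i ≠ ε.symm j := fun hne => hij (ε.symm.injective hne)
    apply subset_inter
    · exact hmeet _ _ hne
    · rw [inter_comm]
      exact hmeet _ _ hne.symm

/-! ### Existence of a convex partition -/

section cells

variable {d : ℕ} {κ : Type} [Fintype κ]

/-- A compact set given by finitely many affine inequalities is the convex hull of a finite
set. -/
theorem hull_of_ineq (ℓ : κ → EuclideanSpace ℝ (Fin d) →L[ℝ] ℝ) (β : κ → ℝ)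
    (hS : IsCompact {x | ∀ i, ℓ i x + β i ≤ 0}) (hne : {x | ∀ i, ℓ i x + β i ≤ 0}.Nonempty) :
    ∃ V : Finset (EuclideanSpace ℝ (Fin d)), V.Nonempty ∧
      {x | ∀ i, ℓ i x + β i ≤ 0} = convexHull ℝ (V : Set (EuclideanSpace ℝ (Fin d))) := by
  classical
  have hconv : Convex ℝ {x | ∀ i, ℓ i x + β i ≤ 0} := by
    intro x hx y hy a b ha hb hab i
    have h1 := hx i
    have h2 := hy i
    rw [map_add, map_smul, map_smul, smul_eq_mul, smul_eq_mul]
    have h3 : a * ℓ i x + b * ℓ i y + β i = a * (ℓ i x + β i) + b * (ℓ i y + β i) := by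
      linear_combination (-β i) * hab
    rw [h3]
    nlinarith
  have hfin : (extremePoints ℝ {x | ∀ i, ℓ i x + β i ≤ 0}).Finite := by
    have hinj : Set.InjOn (fun x : EuclideanSpace ℝ (Fin d) =>
        (Finset.univ.filter fun i => ℓ i x + β i = 0 : Finset κ))
        (extremePoints ℝ {x | ∀ i, ℓ i x + β i ≤ 0}) := by
      intro x hx y hy hxy
      simp only at hxy
      -- move slightly beyond `x`
      have hact : ∀ i, ℓ i x + β i = 0 → ℓ i y + β i = 0 := by
        intro i hi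
        have h1 : i ∈ (Finset.univ.filter fun i => ℓ i x + β i = 0 : Finset κ) := by simp [hi]
        rw [hxy] at h1
        simpa using h1
      have hev : ∀ᶠ t in nhdsWithin (0 : ℝ) (Ioi 0), ∀ i,
          ℓ i (x - t • (y - x)) + β i ≤ 0 := by
        rw [Filter.eventually_all]
        intro i
        by_cases hi : ℓ i x + β i = 0
        · refine Filter.Eventually.of_forall fun t => ?_
          have h2 := hact i hi
          rw [map_sub, map_smul, map_sub, smul_eq_mul]
          have : ℓ i x - t * (ℓ i y - ℓ i x) + β i =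
            (ℓ i x + β i) - t * ((ℓ i y + β i) - (ℓ i x + β i)) := by ring
          rw [this, hi, h2]
          simp
        · have h2 : ℓ i x + β i < 0 := lt_of_le_of_ne (hx.1 i) hi
          have hcont : Continuous fun t : ℝ => ℓ i (x - t • (y - x)) + β i := by fun_prop
          have h3 : ∀ᶠ t in nhds (0 : ℝ), ℓ i (x - t • (y - x)) + β i < 0 := by
            apply hcont.continuousAt.eventually_lt continuousAt_const
            simpa using h2
          exact (h3.filter_mono nhdsWithin_le_nhds).mono fun t ht => ht.le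
      have hpos : ∀ᶠ t in nhdsWithin (0 : ℝ) (Ioi 0), 0 < t := eventually_mem_nhdsWithin
      obtain ⟨t, ht1, ht2⟩ := (hev.and hpos).exists
      have hmem : x ∈ openSegment ℝ (x - t • (y - x)) y := by
        refine ⟨1 / (1 + t), t / (1 + t), by positivity, by positivity, by field_simp, ?_⟩
        have h1 : (1 + t) ≠ 0 := by positivity
        have h5 : (1 / (1 + t)) • (x - t • (y - x)) + (t / (1 + t)) • y =
            (1 / (1 + t) * (1 + t)) • x := by
          module
        rw [h5, one_div, inv_mul_cancel₀ h1, one_smul]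
      have h6 := hx.2 ht1 hy.1 hmem
      have h7 : t • (y - x) = 0 := by
        have : x - t • (y - x) = x := h6
        exact sub_eq_self.1 this
      rcases smul_eq_zero.1 h7 with h8 | h8
      · exact absurd h8 ht2.ne'
      · exact (sub_eq_zero.1 h8).symm
    exact Set.Finite.of_injOn (Set.mapsTo_univ _ _) hinj Set.finite_univ
  have hKM := closure_convexHull_extremePoints hS hconv
  have h9 : IsClosed (convexHull ℝ (extremePoints ℝ {x | ∀ i, ℓ i x + β i ≤ 0})) :=
    hfin.isClosed_convexHull ℝ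
  rw [h9.closure_eq] at hKM
  refine ⟨hfin.toFinset, ?_, ?_⟩
  · rw [Set.Finite.toFinset_nonempty]
    exact hS.extremePoints_nonempty hne
  · rw [Set.Finite.coe_toFinset]
    exact hKM.symm

/-- The sign change of an affine functional. -/
def sg (s : Bool) (t : ℝ) : ℝ := if s = true then t else -t

/-- The closed cell with the sign vector `σ`. -/
def cell (ℓ : κ → EuclideanSpace ℝ (Fin d) →L[ℝ] ℝ) (β : κ → ℝ) (σ : κ → Bool) :
    Set (EuclideanSpace ℝ (Fin d)) := {x | ∀ i, sg (σ i) (ℓ i x + β i) ≤ 0}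

/-- The open cell with the sign vector `σ`. -/
def ocell (ℓ : κ → EuclideanSpace ℝ (Fin d) →L[ℝ] ℝ) (β : κ → ℝ) (σ : κ → Bool) :
    Set (EuclideanSpace ℝ (Fin d)) := {x | ∀ i, sg (σ i) (ℓ i x + β i) < 0}

theorem sg_continuous (s : Bool) : Continuous (sg s) := by
  unfold sg
  cases s <;> simp <;> fun_prop

theorem isClosed_cell (ℓ : κ → EuclideanSpace ℝ (Fin d) →L[ℝ] ℝ) (β : κ → ℝ) (σ : κ → Bool) :
    IsClosed (cell ℓ β σ) := by
  have h1 : cell ℓ β σ = ⋂ i, {x | sg (σ i) (ℓ i x + β i) ≤ 0} := by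
    ext x; simp [cell]
  rw [h1]
  apply isClosed_iInter
  intro i
  exact isClosed_le ((sg_continuous _).comp (by fun_prop)) continuous_const

theorem isOpen_ocell (ℓ : κ → EuclideanSpace ℝ (Fin d) →L[ℝ] ℝ) (β : κ → ℝ) (σ : κ → Bool) :
    IsOpen (ocell ℓ β σ) := by
  have h1 : ocell ℓ β σ = ⋂ i, {x | sg (σ i) (ℓ i x + β i) < 0} := by
    ext x; simp [ocell]
  rw [h1]
  apply isOpen_iInter_of_finite
  intro i
  exact isOpen_lt ((sg_continuous _).comp (by fun_prop)) continuous_const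

theorem cell_subset_closure (ℓ : κ → EuclideanSpace ℝ (Fin d) →L[ℝ] ℝ) (β : κ → ℝ)
    (σ : κ → Bool) (hne : (ocell ℓ β σ).Nonempty) : cell ℓ β σ ⊆ closure (ocell ℓ β σ) := by
  obtain ⟨y, hy⟩ := hne
  intro x hx
  have hcont : Continuous fun t : ℝ => x + t • (y - x) := by fun_prop
  have h1 : Filter.Tendsto (fun t : ℝ => x + t • (y - x)) (nhdsWithin (0 : ℝ) (Ioo 0 1))
      (nhds x) := by
    have h2 := hcont.tendsto (0 : ℝ)
    simp only [zero_smul, add_zero] at h2
    exact h2.mono_left nhdsWithin_le_nhds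
  have hbot : (nhdsWithin (0 : ℝ) (Ioo 0 1)).NeBot := by
    rw [← mem_closure_iff_nhdsWithin_neBot, closure_Ioo (by norm_num)]
    simp
  refine mem_closure_of_tendsto h1 ?_
  filter_upwards [self_mem_nhdsWithin] with t ht
  intro i
  have h3 := hx i
  have h4 := hy i
  have h5 : ℓ i (x + t • (y - x)) + β i = (1 - t) * (ℓ i x + β i) + t * (ℓ i y + β i) := by
    rw [map_add, map_smul, map_sub, smul_eq_mul]
    ring
  rw [h5]
  have h6 : sg (σ i) ((1 - t) * (ℓ i x + β i) + t * (ℓ i y + β i)) =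
      (1 - t) * sg (σ i) (ℓ i x + β i) + t * sg (σ i) (ℓ i y + β i) := by
    unfold sg
    split_ifs <;> ring
  rw [h6]
  nlinarith [ht.1, ht.2, mul_nonneg (sub_nonneg.2 ht.2.le) (neg_nonneg.2 h3),
    mul_pos ht.1 (neg_pos.2 h4)]

theorem interior_cell (ℓ : κ → EuclideanSpace ℝ (Fin d) →L[ℝ] ℝ) (β : κ → ℝ)
    (hℓ : ∀ i, ℓ i ≠ 0) (σ : κ → Bool) : interior (cell ℓ β σ) ⊆ ocell ℓ β σ := by
  intro x hx i
  have h1 := interior_subset hx i
  refine lt_of_le_of_ne h1 ?_
  intro h2
  obtain ⟨v, hv⟩ : ∃ v, ℓ i v ≠ 0 := by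
    by_contra h3
    push Not at h3
    exact hℓ i (ContinuousLinearMap.ext h3)
  -- choose the sign of the direction
  obtain ⟨w, hw⟩ : ∃ w, 0 < sg (σ i) (ℓ i w) := by
    rcases lt_or_gt_of_ne hv with h3 | h3
    · cases hs : σ i
      · refine ⟨v, ?_⟩
        simp only [sg]
        simpa using h3
      · refine ⟨-v, ?_⟩
        simp only [sg, if_true, map_neg]
        simpa using h3
    · cases hs : σ i
      · refine ⟨-v, ?_⟩
        simp only [sg, map_neg]
        simpa using h3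
      · refine ⟨v, ?_⟩
        simp only [sg, if_true]
        exact h3
  have hcont : Continuous fun t : ℝ => x + t • w := by fun_prop
  have h4 : ∀ᶠ t in nhds (0 : ℝ), x + t • w ∈ interior (cell ℓ β σ) := by
    apply hcont.continuousAt.eventually
    simp only [zero_smul, add_zero]
    exact isOpen_interior.mem_nhds hx
  have h5 : ∀ᶠ t in nhdsWithin (0 : ℝ) (Ioi 0), x + t • w ∈ interior (cell ℓ β σ) :=
    h4.filter_mono nhdsWithin_le_nhds
  have h6 : ∀ᶠ t in nhdsWithin (0 : ℝ) (Ioi 0), 0 < t := eventually_mem_nhdsWithin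
  obtain ⟨t, ht1, ht2⟩ := (h5.and h6).exists
  have h7 := interior_subset ht1 i
  have h8 : sg (σ i) (ℓ i (x + t • w) + β i) = sg (σ i) (ℓ i x + β i) + t * sg (σ i) (ℓ i w) := by
    rw [map_add, map_smul, smul_eq_mul]
    unfold sg
    split_ifs <;> ring
  rw [h8, h2] at h7
  have := mul_pos ht2 hw
  linarith

theorem dense_ne (ℓ : κ → EuclideanSpace ℝ (Fin d) →L[ℝ] ℝ) (β : κ → ℝ)
    (hℓ : ∀ i, ℓ i ≠ 0) : Dense {x | ∀ i, ℓ i x + β i ≠ 0} := by
  have h1 : {x | ∀ i, ℓ i x + β i ≠ 0} = ⋂ i, {x | ℓ i x + β i ≠ 0} := by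
    ext x; simp
  rw [h1]
  apply dense_iInter_of_isOpen
  · intro i
    exact isOpen_ne_fun (by fun_prop) continuous_const
  · intro i
    rw [← compl_compl {x | ℓ i x + β i ≠ 0}, ← interior_eq_empty_iff_dense_compl]
    rw [eq_empty_iff_forall_notMem]
    intro x hx
    obtain ⟨v, hv⟩ : ∃ v, ℓ i v ≠ 0 := by
      by_contra h3
      push Not at h3
      exact hℓ i (ContinuousLinearMap.ext h3)
    have hcont : Continuous fun t : ℝ => x + t • v := by fun_prop
    have h4 : ∀ᶠ t in nhds (0 : ℝ), x + t • v ∈ interior {x | ℓ i x + β i ≠ 0}ᶜ := by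
      apply hcont.continuousAt.eventually
      simp only [zero_smul, add_zero]
      exact isOpen_interior.mem_nhds hx
    have h5 : ∀ᶠ t in nhdsWithin (0 : ℝ) (Ioi 0), x + t • v ∈
        interior {x | ℓ i x + β i ≠ 0}ᶜ := h4.filter_mono nhdsWithin_le_nhds
    have h6 : ∀ᶠ t in nhdsWithin (0 : ℝ) (Ioi 0), 0 < t := eventually_mem_nhdsWithin
    obtain ⟨t, ht1, ht2⟩ := (h5.and h6).exists
    have h7 := interior_subset ht1
    have h8 := interior_subset hx
    simp only [mem_compl_iff, mem_ofPred_eq, not_not] at h7 h8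
    rw [map_add, map_smul, smul_eq_mul] at h7
    have h9 : t * ℓ i v = 0 := by linarith
    rcases mul_eq_zero.1 h9 with h10 | h10
    · exact ht2.ne' h10
    · exact hv h10

theorem cell_polytope (ℓ : κ → EuclideanSpace ℝ (Fin d) →L[ℝ] ℝ) (β : κ → ℝ)
    (σ : κ → Bool) (hne : (ocell ℓ β σ).Nonempty) (hc : IsCompact (cell ℓ β σ)) :
    IsPolytope d (cell ℓ β σ) := by
  have hsub : ocell ℓ β σ ⊆ cell ℓ β σ := fun x hx i => (hx i).le
  constructor
  · have h1 : cell ℓ β σ = {x | ∀ i, (if σ i = true then ℓ i else -ℓ i) x +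
        (if σ i = true then β i else -β i) ≤ 0} := by
      ext x
      simp only [cell, mem_ofPred_eq]
      apply forall_congr'
      intro i
      unfold sg
      split_ifs
      · rfl
      · rw [neg_add]; rfl
    rw [h1] at hc ⊢
    apply hull_of_ineq _ _ hc
    rw [← h1]
    exact hne.mono hsub
  · have h1 : vectorSpan ℝ (ocell ℓ β σ) = ⊤ := by
      rw [← direction_affineSpan, (isOpen_ocell ℓ β σ).affineSpan_eq_top hne]
      exact AffineSubspace.direction_top ℝ _ _
    have h2 : vectorSpan ℝ (cell ℓ β σ) = ⊤ := by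
      rw [eq_top_iff, ← h1]
      exact vectorSpan_mono ℝ hsub
    rw [h2, finrank_top, finrank_euclideanSpace, Fintype.card_fin]

/-- A regular compact set which is a union of cells of a finite arrangement of hyperplanes has a
convex partition. -/
theorem exists_partition (ℓ : κ → EuclideanSpace ℝ (Fin d) →L[ℝ] ℝ) (β : κ → ℝ)
    (hℓ : ∀ i, ℓ i ≠ 0) (P : Set (EuclideanSpace ℝ (Fin d))) (hcomp : IsCompact P)
    (hreg : closure (interior P) = P) (A : Set (κ → Bool))
    (hP : ∀ x σ, x ∈ ocell ℓ β σ → (x ∈ P ↔ σ ∈ A)) :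
    ∃ (m : ℕ) (C : Fin m → Set (EuclideanSpace ℝ (Fin d))), IsConvexPartition P C := by
  classical
  let J := {σ : κ → Bool // σ ∈ A ∧ (ocell ℓ β σ).Nonempty}
  let ε := Fintype.equivFin J
  have hPc : IsClosed P := hcomp.isClosed
  have hsubP : ∀ σ : J, cell ℓ β σ.1 ⊆ P := by
    intro σ
    refine (cell_subset_closure ℓ β σ.1 σ.2.2).trans ?_
    apply closure_minimal _ hPc
    intro x hx
    exact (hP x σ.1 hx).2 σ.2.1
  have hcell : ∀ σ : J, IsCompact (cell ℓ β σ.1) := fun σ =>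
    hcomp.of_isClosed_subset (isClosed_cell ℓ β σ.1) (hsubP σ)
  refine ⟨Fintype.card J, fun i => cell ℓ β (ε.symm i).1, ?_, ?_, ?_⟩
  · intro i
    exact cell_polytope ℓ β _ (ε.symm i).2.2 (hcell _)
  · intro i j hij
    have hne : (ε.symm i).1 ≠ (ε.symm j).1 := by
      intro h
      exact hij (ε.symm.injective (Subtype.ext h))
    obtain ⟨e, he⟩ := Function.ne_iff.1 hne
    rw [Set.disjoint_left]
    intro x hx hx'
    have h1 := interior_cell ℓ β hℓ _ hx e
    have h2 := interior_cell ℓ β hℓ _ hx' e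
    unfold sg at h1 h2
    rcases Bool.eq_false_or_eq_true ((ε.symm i).1 e) with h3 | h3 <;>
      rcases Bool.eq_false_or_eq_true ((ε.symm j).1 e) with h4 | h4
    · exact he (h3.trans h4.symm)
    · rw [h3] at h1
      rw [h4] at h2
      simp at h1 h2
      linarith
    · rw [h3] at h1
      rw [h4] at h2
      simp at h1 h2
      linarith
    · exact he (h3.trans h4.symm)
  · have h1 : (⋃ i, cell ℓ β (ε.symm i).1) = ⋃ σ : J, cell ℓ β σ.1 :=
      ε.symm.surjective.iUnion_comp fun σ : J => cell ℓ β σ.1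
    rw [h1]
    apply Subset.antisymm
    · exact iUnion_subset hsubP
    · have h2 : IsClosed (⋃ σ : J, cell ℓ β σ.1) :=
        isClosed_iUnion_of_finite fun σ => isClosed_cell ℓ β σ.1
      have h3 : P ⊆ closure (interior P ∩ {x | ∀ i, ℓ i x + β i ≠ 0}) := by
        intro x hx
        rw [← hreg] at hx
        have := (dense_ne ℓ β hℓ).open_subset_closure_inter (isOpen_interior (s := P))
        exact closure_minimal this isClosed_closure hx
      refine h3.trans ?_
      apply closure_minimal _ h2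
      rintro x ⟨hx1, hx2⟩
      have h4 : x ∈ ocell ℓ β fun i => decide (ℓ i x + β i < 0) := by
        intro i
        unfold sg
        by_cases h5 : ℓ i x + β i < 0
        · simp [h5]
        · have h6 : 0 < ℓ i x + β i := lt_of_le_of_ne (not_lt.1 h5) (hx2 i).symm
          simp only [h5, decide_false, Bool.false_eq_true, if_false]
          linarith
      have h5 := (hP x _ h4).1 (interior_subset hx1)
      exact mem_iUnion.2 ⟨⟨_, h5, ⟨x, h4⟩⟩, fun i => (h4 i).le⟩

end cells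

/-- A box minus finitely many open boxes has a convex partition. -/
theorem partition_of_boxes {d : ℕ} {I : Type} [Fintype I] [DecidableEq I]
    {ι : Type} [Fintype ι]
    (L₀ : EuclideanSpace ℝ (Fin d) ≃L[ℝ] (I → ℝ)) (lo₀ hi₀ : I → ℝ)
    (L : ι → EuclideanSpace ℝ (Fin d) ≃L[ℝ] (I → ℝ)) (lo hi : ι → I → ℝ)
    (P : Set (EuclideanSpace ℝ (Fin d)))
    (hPe : P = L₀ ⁻¹' Icc lo₀ hi₀ \ ⋃ i, interior (L i ⁻¹' Icc (lo i) (hi i)))
    (hcomp : IsCompact P) (hreg : closure (interior P) = P) :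
    ∃ (m : ℕ) (C : Fin m → Set (EuclideanSpace ℝ (Fin d))), IsConvexPartition P C := by
  classical
  let κ := Option ι × I × Bool
  let LL : Option ι → EuclideanSpace ℝ (Fin d) ≃L[ℝ] (I → ℝ) := fun u => u.elim L₀ L
  let lo' : Option ι → I → ℝ := fun u => u.elim lo₀ lo
  let hi' : Option ι → I → ℝ := fun u => u.elim hi₀ hi
  let ℓ : κ → EuclideanSpace ℝ (Fin d) →L[ℝ] ℝ := fun e =>
    if e.2.2 = true then (ContinuousLinearMap.proj e.2.1).comp (LL e.1 : _ →L[ℝ] (I → ℝ))
    else -((ContinuousLinearMap.proj e.2.1).comp (LL e.1 : _ →L[ℝ] (I → ℝ)))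
  let β : κ → ℝ := fun e => if e.2.2 = true then -hi' e.1 e.2.1 else lo' e.1 e.2.1
  have hval1 : ∀ u j x, ℓ (u, j, true) x + β (u, j, true) = LL u x j - hi' u j := by
    intro u j x
    simp only [ℓ, β, if_true]
    rfl
  have hval2 : ∀ u j x, ℓ (u, j, false) x + β (u, j, false) = lo' u j - LL u x j := by
    intro u j x
    simp only [ℓ, β, Bool.false_eq_true, if_false]
    have : (-((ContinuousLinearMap.proj j).comp (LL u : _ →L[ℝ] (I → ℝ))) :
        EuclideanSpace ℝ (Fin d) →L[ℝ] ℝ) x = -(LL u x j) := rfl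
    rw [this]
    ring
  have hℓ : ∀ e, ℓ e ≠ 0 := by
    rintro ⟨u, j, s⟩ h
    have h1 : ∀ x, ℓ (u, j, s) x = 0 := fun x => by rw [h]; rfl
    have h2 := h1 ((LL u).symm (Pi.single j 1))
    cases s
    · have h3 := hval2 u j ((LL u).symm (Pi.single j 1))
      rw [h2, ContinuousLinearEquiv.apply_symm_apply] at h3
      simp only [β, Bool.false_eq_true, if_false, Pi.single_eq_same] at h3
      linarith
    · have h3 := hval1 u j ((LL u).symm (Pi.single j 1))
      rw [h2, ContinuousLinearEquiv.apply_symm_apply] at h3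
      simp only [β, if_true, Pi.single_eq_same] at h3
      linarith
  -- the sign vectors of the cells inside `P`
  let A : Set (κ → Bool) := {σ | (∀ j s, σ (none, j, s) = true) ∧
    ∀ i, ¬ ∀ j s, σ (some i, j, s) = true}
  have hmem : ∀ x σ, x ∈ ocell ℓ β σ → ∀ u, ((∀ j s, σ (u, j, s) = true) ↔
      LL u x ∈ Icc (lo' u) (hi' u)) ∧ ((∀ j s, σ (u, j, s) = true) ↔
      ∀ j, lo' u j < LL u x j ∧ LL u x j < hi' u j) := by
    intro x σ hx u
    have h1 : (∀ j s, σ (u, j, s) = true) →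
        ∀ j, lo' u j < LL u x j ∧ LL u x j < hi' u j := by
      intro h j
      have e1 := hx (u, j, true)
      have e2 := hx (u, j, false)
      rw [h j true, hval1] at e1
      rw [h j false, hval2] at e2
      simp only [sg, if_true] at e1 e2
      constructor <;> linarith
    have h2 : LL u x ∈ Icc (lo' u) (hi' u) → ∀ j s, σ (u, j, s) = true := by
      intro h j s
      by_contra h3
      rw [Bool.not_eq_true] at h3
      have e1 := hx (u, j, s)
      rw [h3] at e1
      simp only [sg, Bool.false_eq_true, if_false] at e1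
      have e2 := h.1 j
      have e3 := h.2 j
      cases s
      · rw [hval2] at e1
        linarith
      · rw [hval1] at e1
        linarith
    refine ⟨⟨fun h => ⟨fun j => (h1 h j).1.le, fun j => (h1 h j).2.le⟩, h2⟩, h1, fun h => h2
      ⟨fun j => (h j).1.le, fun j => (h j).2.le⟩⟩
  apply exists_partition ℓ β hℓ P hcomp hreg A
  intro x σ hx
  rw [hPe]
  constructor
  · rintro ⟨h1, h2⟩
    refine ⟨((hmem x σ hx none).1).2 h1, ?_⟩
    intro i hi'
    apply h2
    refine mem_iUnion.2 ⟨i, ?_⟩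
    rw [interior_box]
    exact ((hmem x σ hx (some i)).2).1 hi'
  · rintro ⟨h1, h2⟩
    refine ⟨((hmem x σ hx none).1).1 h1, ?_⟩
    intro h3
    obtain ⟨i, hi'⟩ := mem_iUnion.1 h3
    rw [interior_box] at hi'
    exact h2 i (((hmem x σ hx (some i)).2).2 hi')

/-! ### The walls -/

/-- The pairs `a < b` of indices. -/
abbrev Pr (k : ℕ) : Type := {p : Fin k × Fin k // p.1 < p.2}

/-- The coordinates: `z_b` for `b : Fin k`, `y_p` for a pair `p`, and `r` further coordinates. -/
abbrev Ix (k r : ℕ) : Type := (Fin k ⊕ Pr k) ⊕ Fin r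

section shear

variable {k r : ℕ}

/-- The nilpotent part of the shear `y_{ab} ↦ y_{ab} - c z_b`, `y_{ba} ↦ y_{ba} - c z_b`. -/
def shN (a : Fin k) (c : ℝ) : (Ix k r → ℝ) →ₗ[ℝ] (Ix k r → ℝ) :=
  LinearMap.pi fun j =>
    match j with
    | Sum.inl (Sum.inl _) => 0
    | Sum.inl (Sum.inr p) =>
      if p.1.1 = a then c • LinearMap.proj (Sum.inl (Sum.inl p.1.2))
      else if p.1.2 = a then c • LinearMap.proj (Sum.inl (Sum.inl p.1.1))
      else 0
    | Sum.inr _ => 0

theorem shN_z (a : Fin k) (c : ℝ) (x : Ix k r → ℝ) (b : Fin k) :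
    shN a c x (Sum.inl (Sum.inl b)) = 0 := by
  simp [shN]

theorem shN_w (a : Fin k) (c : ℝ) (x : Ix k r → ℝ) (s : Fin r) :
    shN a c x (Sum.inr s) = 0 := by
  simp [shN]

theorem shN_y (a : Fin k) (c : ℝ) (x : Ix k r → ℝ) (p : Pr k) :
    shN a c x (Sum.inl (Sum.inr p)) =
      if p.1.1 = a then c * x (Sum.inl (Sum.inl p.1.2))
      else if p.1.2 = a then c * x (Sum.inl (Sum.inl p.1.1)) else 0 := by
  simp only [shN, LinearMap.pi_apply]
  split_ifs <;> simp

theorem shN_shN (a : Fin k) (c : ℝ) (x : Ix k r → ℝ) : shN a c (shN a c x) = 0 := by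
  ext j
  rcases j with (b | p) | s
  · rw [shN_z]; rfl
  · rw [shN_y]
    simp [shN_z]
  · rw [shN_w]; rfl

/-- The shear. -/
def shE (a : Fin k) (c : ℝ) : (Ix k r → ℝ) ≃ₗ[ℝ] (Ix k r → ℝ) where
  toFun x := x - shN a c x
  invFun x := x + shN a c x
  map_add' x y := by
    rw [map_add]; abel
  map_smul' t x := by
    rw [map_smul, RingHom.id_apply, smul_sub]
  left_inv x := by
    simp [shN_shN]
  right_inv x := by
    simp [shN_shN]

theorem shE_z (a : Fin k) (c : ℝ) (x : Ix k r → ℝ) (b : Fin k) :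
    shE a c x (Sum.inl (Sum.inl b)) = x (Sum.inl (Sum.inl b)) := by
  simp [shE, shN_z]

theorem shE_w (a : Fin k) (c : ℝ) (x : Ix k r → ℝ) (s : Fin r) :
    shE a c x (Sum.inr s) = x (Sum.inr s) := by
  simp [shE, shN_w]

theorem shE_y (a : Fin k) (c : ℝ) (x : Ix k r → ℝ) (p : Pr k) :
    shE a c x (Sum.inl (Sum.inr p)) = x (Sum.inl (Sum.inr p)) -
      (if p.1.1 = a then c * x (Sum.inl (Sum.inl p.1.2))
      else if p.1.2 = a then c * x (Sum.inl (Sum.inl p.1.1)) else 0) := by
  rw [← shN_y]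
  rfl

end shear

/-- The types of walls: a pivot `a` and a sign for every `b > a`. -/
abbrev Ty (k : ℕ) : Type := Σ a : Fin k, ({b : Fin k // a < b} → Bool)

section walls

variable {k r : ℕ}

/-- Lower corner of a wall. -/
noncomputable def wlo (B : ℝ) (w : Ty k) (c : ℝ) : Ix k r → ℝ
  | Sum.inl (Sum.inl b) => if b = w.1 then c - 1 / (64 * B) else 0
  | Sum.inl (Sum.inr p) =>
    if h : p.1.1 = w.1 then
      (if w.2 ⟨p.1.2, h ▸ p.2⟩ = true then 1 / 4 else -(4 * B ^ 2))
    else if p.1.2 = w.1 then -(1 / 16) else -(4 * B ^ 2)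
  | Sum.inr _ => -1

/-- Upper corner of a wall. -/
noncomputable def whi (B : ℝ) (w : Ty k) (c : ℝ) : Ix k r → ℝ
  | Sum.inl (Sum.inl b) => if b = w.1 then c + 1 / (64 * B) else B
  | Sum.inl (Sum.inr p) =>
    if h : p.1.1 = w.1 then
      (if w.2 ⟨p.1.2, h ▸ p.2⟩ = true then 4 * B ^ 2 else -(1 / 4))
    else if p.1.2 = w.1 then 1 / 16 else 4 * B ^ 2
  | Sum.inr _ => 1

theorem wlo_lt_whi (B : ℝ) (hB : 1 ≤ B) (w : Ty k) (c : ℝ) (j : Ix k r) :
    wlo B w c j < whi B w c j := by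
  have h1 : 0 < 1 / (64 * B) := by positivity
  have h2 : 4 ≤ 4 * B ^ 2 := by nlinarith
  rcases j with (b | p) | s
  · simp only [wlo, whi]
    split_ifs
    · linarith
    · linarith
  · simp only [wlo, whi]
    split_ifs <;> linarith
  · simp only [wlo, whi]
    norm_num

/-- Membership in a wall, in the unsheared coordinates. -/
def InW (B : ℝ) (w : Ty k) (c : ℝ) (x : Ix k r → ℝ) : Prop :=
  shE w.1 c x ∈ Icc (wlo B w c) (whi B w c)

theorem InW.z_pivot {B : ℝ} {w : Ty k} {c : ℝ} {x : Ix k r → ℝ} (h : InW B w c x) :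
    |x (Sum.inl (Sum.inl w.1)) - c| ≤ 1 / (64 * B) := by
  have h1 := h.1 (Sum.inl (Sum.inl w.1))
  have h2 := h.2 (Sum.inl (Sum.inl w.1))
  rw [shE_z] at h1 h2
  simp only [wlo, whi, if_true] at h1 h2
  rw [abs_le]
  constructor <;> linarith

theorem InW.z_other {B : ℝ} {w : Ty k} {c : ℝ} {x : Ix k r → ℝ} (h : InW B w c x) (b : Fin k)
    (hb : b ≠ w.1) : 0 ≤ x (Sum.inl (Sum.inl b)) ∧ x (Sum.inl (Sum.inl b)) ≤ B := by
  have h1 := h.1 (Sum.inl (Sum.inl b))
  have h2 := h.2 (Sum.inl (Sum.inl b))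
  rw [shE_z] at h1 h2
  simp only [wlo, whi, if_neg hb] at h1 h2
  exact ⟨h1, h2⟩

theorem InW.w {B : ℝ} {w : Ty k} {c : ℝ} {x : Ix k r → ℝ} (h : InW B w c x) (s : Fin r) :
    -1 ≤ x (Sum.inr s) ∧ x (Sum.inr s) ≤ 1 := by
  have h1 := h.1 (Sum.inr s)
  have h2 := h.2 (Sum.inr s)
  rw [shE_w] at h1 h2
  exact ⟨h1, h2⟩

theorem InW.up {B : ℝ} {w : Ty k} {c : ℝ} {x : Ix k r → ℝ} (h : InW B w c x) (b : Fin k)
    (hb : w.1 < b) :
    (w.2 ⟨b, hb⟩ = true → 1 / 4 ≤ x (Sum.inl (Sum.inr ⟨(w.1, b), hb⟩)) -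
        c * x (Sum.inl (Sum.inl b))) ∧
      (w.2 ⟨b, hb⟩ = false → x (Sum.inl (Sum.inr ⟨(w.1, b), hb⟩)) -
        c * x (Sum.inl (Sum.inl b)) ≤ -(1 / 4)) := by
  have h1 := h.1 (Sum.inl (Sum.inr ⟨(w.1, b), hb⟩))
  have h2 := h.2 (Sum.inl (Sum.inr ⟨(w.1, b), hb⟩))
  rw [shE_y] at h1 h2
  simp only [wlo, whi, if_true, dif_pos] at h1 h2
  constructor
  · intro h3
    rw [if_pos h3] at h1
    exact h1
  · intro h3
    rw [if_neg (by simp [h3])] at h2
    exact h2

theorem InW.down {B : ℝ} {w : Ty k} {c : ℝ} {x : Ix k r → ℝ} (h : InW B w c x) (b : Fin k)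
    (hb : b < w.1) :
    |x (Sum.inl (Sum.inr ⟨(b, w.1), hb⟩)) - c * x (Sum.inl (Sum.inl b))| ≤ 1 / 16 := by
  have h1 := h.1 (Sum.inl (Sum.inr ⟨(b, w.1), hb⟩))
  have h2 := h.2 (Sum.inl (Sum.inr ⟨(b, w.1), hb⟩))
  rw [shE_y] at h1 h2
  simp only [wlo, whi, if_true, dif_neg hb.ne, if_neg hb.ne] at h1 h2
  rw [abs_le]
  exact ⟨h1, h2⟩

theorem InW.y_abs {B : ℝ} (hB : 1 ≤ B) {w : Ty k} {c : ℝ} (hc : 0 ≤ c ∧ c ≤ B)
    {x : Ix k r → ℝ} (h : InW B w c x) (p : Pr k) :
    |x (Sum.inl (Sum.inr p))| ≤ 5 * B ^ 2 := by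
  have h1 := h.1 (Sum.inl (Sum.inr p))
  have h2 := h.2 (Sum.inl (Sum.inr p))
  rw [shE_y] at h1 h2
  have hB2 : 1 ≤ B ^ 2 := by nlinarith
  have h3 : |x (Sum.inl (Sum.inr p)) -
      (if p.1.1 = w.1 then c * x (Sum.inl (Sum.inl p.1.2))
      else if p.1.2 = w.1 then c * x (Sum.inl (Sum.inl p.1.1)) else 0)| ≤ 4 * B ^ 2 := by
    rw [abs_le]
    constructor
    · refine le_trans ?_ h1
      simp only [wlo]
      split_ifs <;> linarith
    · refine le_trans h2 ?_
      simp only [whi]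
      split_ifs <;> linarith
  have h4 : |(if p.1.1 = w.1 then c * x (Sum.inl (Sum.inl p.1.2))
      else if p.1.2 = w.1 then c * x (Sum.inl (Sum.inl p.1.1)) else 0)| ≤ B ^ 2 := by
    split_ifs with h5 h6
    · have h7 := h.z_other p.1.2 (by rw [← h5]; exact p.2.ne')
      rw [abs_le]
      constructor
      · nlinarith [mul_nonneg hc.1 h7.1]
      · nlinarith [mul_le_mul hc.2 h7.2 h7.1 (by linarith : (0:ℝ) ≤ B)]
    · have h7 := h.z_other p.1.1 (by rw [← h6]; exact p.2.ne)
      rw [abs_le]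
      constructor
      · nlinarith [mul_nonneg hc.1 h7.1]
      · nlinarith [mul_le_mul hc.2 h7.2 h7.1 (by linarith : (0:ℝ) ≤ B)]
    · rw [abs_zero]; positivity
  have h5 := abs_add_le (x (Sum.inl (Sum.inr p)) -
      (if p.1.1 = w.1 then c * x (Sum.inl (Sum.inl p.1.2))
      else if p.1.2 = w.1 then c * x (Sum.inl (Sum.inl p.1.1)) else 0))
      (if p.1.1 = w.1 then c * x (Sum.inl (Sum.inl p.1.2))
      else if p.1.2 = w.1 then c * x (Sum.inl (Sum.inl p.1.1)) else 0)
  rw [sub_add_cancel] at h5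
  linarith

/-- Walls with different pivots are disjoint. -/
theorem disj_pivot {B : ℝ} (hB : 1 ≤ B) {w w' : Ty k} {c c' : ℝ} (hc : 0 ≤ c ∧ c ≤ B)
    (hc' : 0 ≤ c' ∧ c' ≤ B) (hlt : w.1 < w'.1) {x : Ix k r → ℝ} (h : InW B w c x)
    (h' : InW B w' c' x) : False := by
  have h1 := h.up w'.1 hlt
  have h2 := h'.down w.1 hlt
  have h3 := h.z_pivot
  have h4 := h'.z_pivot
  have hB0 : (0 : ℝ) < B := by linarith
  -- multiply the two bounds by the constants
  have h5 : |c * (x (Sum.inl (Sum.inl w'.1)) - c')| ≤ 1 / 64 := by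
    rw [abs_mul, abs_of_nonneg hc.1]
    calc c * |x (Sum.inl (Sum.inl w'.1)) - c'| ≤ B * (1 / (64 * B)) :=
          mul_le_mul hc.2 h4 (abs_nonneg _) hB0.le
      _ = 1 / 64 := by field_simp
  have h6 : |c' * (x (Sum.inl (Sum.inl w.1)) - c)| ≤ 1 / 64 := by
    rw [abs_mul, abs_of_nonneg hc'.1]
    calc c' * |x (Sum.inl (Sum.inl w.1)) - c| ≤ B * (1 / (64 * B)) :=
          mul_le_mul hc'.2 h3 (abs_nonneg _) hB0.le
      _ = 1 / 64 := by field_simp
  rw [abs_le] at h2 h5 h6
  rcases Bool.eq_false_or_eq_true (w.2 ⟨w'.1, hlt⟩) with ht | ht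
  · have h7 := h1.1 ht
    nlinarith [h2.1, h2.2, h5.1, h5.2, h6.1, h6.2]
  · have h7 := h1.2 ht
    nlinarith [h2.1, h2.2, h5.1, h5.2, h6.1, h6.2]

/-- Two walls with the same pivot are disjoint. -/
theorem disj_same {B : ℝ} (hB : 1 ≤ B) (a : Fin k) (t t' : {b : Fin k // a < b} → Bool)
    {c c' : ℝ} (hne : c = c' → t ≠ t') (hcc : c ≠ c' → 1 ≤ |c - c'|) {x : Ix k r → ℝ}
    (h : InW B ⟨a, t⟩ c x) (h' : InW B ⟨a, t'⟩ c' x) : False := by
  by_cases hc : c = c'
  · subst hc
    obtain ⟨b, hb⟩ := Function.ne_iff.1 (hne rfl)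
    have h1 := h.up b.1 b.2
    have h2 := h'.up b.1 b.2
    simp only at h1 h2
    rcases Bool.eq_false_or_eq_true (t b) with h3 | h3 <;>
      rcases Bool.eq_false_or_eq_true (t' b) with h4 | h4
    · exact hb (h3.trans h4.symm)
    · linarith [h1.1 h3, h2.2 h4]
    · linarith [h1.2 h3, h2.1 h4]
    · exact hb (h3.trans h4.symm)
  · have h1 := h.z_pivot
    have h2 := h'.z_pivot
    simp only at h1 h2
    have h3 := hcc hc
    have h4 : 1 / (64 * B) ≤ 1 / 64 := by
      apply one_div_le_one_div_of_le (by norm_num)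
      linarith
    have h5 : |c - c'| ≤ |x (Sum.inl (Sum.inl a)) - c| + |x (Sum.inl (Sum.inl a)) - c'| := by
      have := abs_sub (x (Sum.inl (Sum.inl a)) - c') (x (Sum.inl (Sum.inl a)) - c)
      have h6 : x (Sum.inl (Sum.inl a)) - c' - (x (Sum.inl (Sum.inl a)) - c) = c - c' := by ring
      rw [h6] at this
      linarith
    linarith

end walls

/-! ### Separating systems -/

/-- A separating system: `k` coordinate functions on a finite set `T`, with `N` thresholds for
each coordinate, such that any two points of `T` are separated by a threshold in some coordinate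
`a`, while they agree in the coordinates before `a` and differ in the coordinates after `a`. -/
structure Sep (k N : ℕ) (T : Type) where
  Z : Fin k → T → ℝ
  c : Fin k → Fin N → ℝ
  B : ℝ
  one_le_B : 1 ≤ B
  Z_pos : ∀ b t, 0 < Z b t
  Z_lt : ∀ b t, Z b t < B
  c_pos : ∀ a i, 0 ≤ c a i
  c_le : ∀ a i, c a i ≤ B
  c_sep : ∀ a i j, i ≠ j → 1 ≤ |c a i - c a j|
  far : ∀ a t i, 1 ≤ |Z a t - c a i|
  sep : ∀ p q, p ≠ q → ∃ a i, (∀ b, b < a → Z b p = Z b q) ∧ (∀ b, a < b → 1 ≤ |Z b p - Z b q|) ∧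
    ((Z a p < c a i ∧ c a i < Z a q) ∨ (Z a q < c a i ∧ c a i < Z a p))

section sep

variable {k r N : ℕ} {T : Type}

/-- The test point of `t`. -/
def Sep.pt (S : Sep k N T) (t : T) : Ix k r → ℝ
  | Sum.inl (Sum.inl b) => S.Z b t
  | Sum.inl (Sum.inr p) => S.Z p.1.1 t * S.Z p.1.2 t
  | Sum.inr _ => 0

/-- Two test points are separated by a wall: the segment between them contains an interior point
of a wall. -/
theorem Sep.blocked (S : Sep k N T) (p q : T) (a : Fin k) (i : Fin N)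
    (h1 : ∀ b, b < a → S.Z b p = S.Z b q) (h2 : ∀ b, a < b → 1 ≤ |S.Z b p - S.Z b q|)
    (h3 : S.Z a p < S.c a i) (h4 : S.c a i < S.Z a q) :
    ∃ w : Ty k, ∃ t : ℝ, 0 ≤ t ∧ t ≤ 1 ∧ w.1 = a ∧
      ∀ j : Ix k r, wlo S.B w (S.c a i) j <
          shE w.1 (S.c a i) ((1 - t) • S.pt p + t • S.pt q) j ∧
        shE w.1 (S.c a i) ((1 - t) • S.pt p + t • S.pt q) j < whi S.B w (S.c a i) j := by
  classical
  obtain ⟨u, hu⟩ : ∃ u, u = S.c a i - S.Z a p := ⟨_, rfl⟩
  obtain ⟨v, hv⟩ : ∃ v, v = S.Z a q - S.c a i := ⟨_, rfl⟩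
  have hu1 : 1 ≤ u := by
    have := S.far a p i
    rw [abs_of_neg (by linarith)] at this
    linarith
  have hv1 : 1 ≤ v := by
    have := S.far a q i
    rw [abs_of_pos (by linarith)] at this
    linarith
  have huv : 0 < u + v := by linarith
  have hZp : S.Z a p = S.c a i - u := by linarith
  have hZq : S.Z a q = S.c a i + v := by linarith
  have hvB : v ≤ S.B := by linarith [S.c_pos a i, S.Z_lt a q]
  have hB := S.one_le_B
  have hB2 : 1 ≤ S.B ^ 2 := by nlinarith
  obtain ⟨t, ht⟩ : ∃ t, t = u / (u + v) := ⟨_, rfl⟩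
  have ht0 : 0 ≤ t := by rw [ht]; positivity
  have ht1 : 1 - t = v / (u + v) := by rw [ht]; field_simp; ring
  have ht2 : 0 ≤ 1 - t := by rw [ht1]; positivity
  -- the factor `κ`
  obtain ⟨κ, hκ⟩ : ∃ κ, κ = u * v / (u + v) := ⟨_, rfl⟩
  have hκ1 : 1 / 2 ≤ κ := by
    rw [hκ, div_le_div_iff₀ (by norm_num) huv]
    nlinarith
  have hκ2 : κ ≤ S.B := by
    refine le_trans ?_ hvB
    rw [hκ, div_le_iff₀ huv]
    nlinarith
  have htu : (1 - t) * u = κ := by rw [ht1, hκ]; ring
  have htv : t * v = κ := by rw [ht, hκ]; ring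
  have hmid : ∀ b, 0 < (1 - t) * S.Z b p + t * S.Z b q ∧
      (1 - t) * S.Z b p + t * S.Z b q < S.B := by
    intro b
    have e1 := S.Z_pos b p
    have e2 := S.Z_pos b q
    have e3 := S.Z_lt b p
    have e4 := S.Z_lt b q
    have e5 : 0 < u / (u + v) := by positivity
    rw [← ht] at e5
    constructor
    · nlinarith [mul_nonneg ht2 e1.le, mul_pos e5 e2]
    · nlinarith [mul_nonneg ht2 (sub_pos.2 e3).le, mul_pos e5 (sub_pos.2 e4)]
  refine ⟨⟨a, fun b => decide (S.Z b p < S.Z b q)⟩, t, ht0, by linarith, rfl, ?_⟩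
  intro j
  rcases j with (b | ⟨⟨p₁, p₂⟩, hp⟩) | s
  · rw [shE_z]
    simp only [Pi.add_apply, Pi.smul_apply, smul_eq_mul, Sep.pt, wlo, whi]
    by_cases hb : b = a
    · subst hb
      have h5 : (1 - t) * S.Z b p + t * S.Z b q = S.c b i := by
        rw [hZp, hZq]
        linear_combination htv - htu
      have h6 : 0 < 1 / (64 * S.B) := by positivity
      rw [if_pos rfl, if_pos rfl, h5]
      constructor <;> linarith
    · rw [if_neg hb, if_neg hb]
      exact hmid b
  · rw [shE_y]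
    simp only [Pi.add_apply, Pi.smul_apply, smul_eq_mul, Sep.pt, wlo, whi]
    simp only at hp
    by_cases hp1 : p₁ = a
    · subst hp1
      rw [dif_pos rfl, dif_pos rfl, if_pos rfl]
      have h5 : (1 - t) * (S.Z p₁ p * S.Z p₂ p) + t * (S.Z p₁ q * S.Z p₂ q) -
          S.c p₁ i * ((1 - t) * S.Z p₂ p + t * S.Z p₂ q) = κ * (S.Z p₂ q - S.Z p₂ p) := by
        rw [hZp, hZq]
        linear_combination (-S.Z p₂ p) * htu + S.Z p₂ q * htv
      rw [h5]
      have h6 := h2 p₂ hp
      have e1 := S.Z_pos p₂ p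
      have e2 := S.Z_pos p₂ q
      have e3 := S.Z_lt p₂ p
      have e4 := S.Z_lt p₂ q
      by_cases h7 : S.Z p₂ p < S.Z p₂ q
      · rw [abs_of_neg (by linarith)] at h6
        simp only [h7, decide_true, if_true]
        constructor
        · nlinarith
        · nlinarith
      · rw [abs_of_nonneg (by linarith)] at h6
        simp only [h7, decide_false]
        constructor
        · have : κ * (S.Z p₂ p - S.Z p₂ q) ≤ S.B * S.B := by
            apply mul_le_mul hκ2 (by linarith) (by linarith) (by linarith)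
          simp only [Bool.false_eq_true, if_false]
          nlinarith
        · simp only [Bool.false_eq_true, if_false]
          nlinarith
    · rw [dif_neg hp1, dif_neg hp1, if_neg hp1]
      by_cases hp2 : p₂ = a
      · subst hp2
        rw [if_pos rfl, if_pos rfl, if_pos rfl]
        have h5 : (1 - t) * (S.Z p₁ p * S.Z p₂ p) + t * (S.Z p₁ q * S.Z p₂ q) -
            S.c p₂ i * ((1 - t) * S.Z p₁ p + t * S.Z p₁ q) = 0 := by
          rw [hZp, hZq, h1 p₁ hp]
          linear_combination (-S.Z p₁ q) * htu + S.Z p₁ q * htv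
        rw [h5]
        norm_num
      · rw [if_neg hp2, if_neg hp2, if_neg hp2]
        have e1 := S.Z_pos p₁ p
        have e2 := S.Z_pos p₁ q
        have e3 := S.Z_lt p₁ p
        have e4 := S.Z_lt p₁ q
        have f1 := S.Z_pos p₂ p
        have f2 := S.Z_pos p₂ q
        have f3 := S.Z_lt p₂ p
        have f4 := S.Z_lt p₂ q
        have g1 : 0 < S.Z p₁ p * S.Z p₂ p := mul_pos e1 f1
        have g2 : 0 < S.Z p₁ q * S.Z p₂ q := mul_pos e2 f2
        have g3 : S.Z p₁ p * S.Z p₂ p < S.B ^ 2 := by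
          rw [sq]
          exact mul_lt_mul'' e3 f3 e1.le f1.le
        have g4 : S.Z p₁ q * S.Z p₂ q < S.B ^ 2 := by
          rw [sq]
          exact mul_lt_mul'' e4 f4 e2.le f2.le
        have g5 := mul_nonneg ht2 g1.le
        have g6 := mul_nonneg ht0 g2.le
        have g7 := mul_nonneg ht2 (sub_pos.2 g3).le
        have g8 := mul_nonneg ht0 (sub_pos.2 g4).le
        constructor
        · linarith
        · linarith
  · rw [shE_w]
    simp only [Pi.add_apply, Pi.smul_apply, smul_eq_mul, Sep.pt, wlo, whi]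
    norm_num

end sep

/-- The lower corner of the outer box. -/
noncomputable def olo {k r : ℕ} (B : ℝ) : Ix k r → ℝ
  | Sum.inl (Sum.inl _) => -1
  | Sum.inl (Sum.inr _) => -(6 * B ^ 2)
  | Sum.inr _ => -2

/-- The upper corner of the outer box. -/
noncomputable def ohi {k r : ℕ} (B : ℝ) : Ix k r → ℝ
  | Sum.inl (Sum.inl _) => B + 1
  | Sum.inl (Sum.inr _) => 6 * B ^ 2
  | Sum.inr _ => 2

theorem olo_lt_ohi {k r : ℕ} (B : ℝ) (hB : 1 ≤ B) (j : Ix k r) : olo B j < ohi B j := by
  have hB2 : 1 ≤ B ^ 2 := by nlinarith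
  rcases j with (b | p) | s <;> simp only [olo, ohi] <;> linarith

theorem InW.outer {k r : ℕ} {B : ℝ} (hB : 1 ≤ B) {w : Ty k} {c : ℝ} (hc : 0 ≤ c ∧ c ≤ B)
    {x : Ix k r → ℝ} (h : InW B w c x) (j : Ix k r) : olo B j < x j ∧ x j < ohi B j := by
  have hB2 : 1 ≤ B ^ 2 := by nlinarith
  rcases j with (b | p) | s
  · simp only [olo, ohi]
    by_cases hb : b = w.1
    · subst hb
      have h1 := h.z_pivot
      have h4 : 1 / (64 * B) ≤ 1 / 64 := by
        apply one_div_le_one_div_of_le (by norm_num)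
        linarith
      rw [abs_le] at h1
      constructor <;> linarith
    · have h1 := h.z_other b hb
      constructor <;> linarith
  · simp only [olo, ohi]
    have h1 := h.y_abs hB hc p
    rw [abs_le] at h1
    constructor <;> linarith
  · simp only [olo, ohi]
    have h1 := h.w s
    constructor <;> linarith

/-- From a separating system to a polyhedron. -/
theorem geom {k r N d : ℕ} (hd : Fintype.card (Ix k r) = d) (hk : 2 ≤ k) {T : Type} [Fintype T]
    (S : Sep k N T) (n e : ℕ)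
    (hn : n = 2 * d * (Fintype.card (Ty k) * N) + 2 * d + e) :
    ∃ (P : Set (EuclideanSpace ℝ (Fin d))) (F : Fin n → Set (EuclideanSpace ℝ (Fin d))),
      IsPolyhedron P F ∧
        (∃ (m : ℕ) (C : Fin m → Set (EuclideanSpace ℝ (Fin d))), IsConvexPartition P C) ∧
        ∀ (m : ℕ) (C : Fin m → Set (EuclideanSpace ℝ (Fin d))), IsConvexPartition P C →
          Fintype.card T ≤ m := by
  classical
  have hB := S.one_le_B
  -- linear coordinates
  have hfin : Module.finrank ℝ (EuclideanSpace ℝ (Fin d)) = Module.finrank ℝ (Ix k r → ℝ) := by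
    rw [finrank_euclideanSpace, Fintype.card_fin, Module.finrank_fintype_fun_eq_card, hd]
  let R : EuclideanSpace ℝ (Fin d) ≃L[ℝ] (Ix k r → ℝ) := ContinuousLinearEquiv.ofFinrankEq hfin
  let L : Ty k × Fin N → EuclideanSpace ℝ (Fin d) ≃L[ℝ] (Ix k r → ℝ) := fun u =>
    R.trans (shE u.1.1 (S.c u.1.1 u.2)).toContinuousLinearEquiv
  have hL : ∀ u x, L u x = shE u.1.1 (S.c u.1.1 u.2) (R x) := fun u x => rfl
  let lo : Ty k × Fin N → Ix k r → ℝ := fun u => wlo S.B u.1 (S.c u.1.1 u.2)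
  let hi : Ty k × Fin N → Ix k r → ℝ := fun u => whi S.B u.1 (S.c u.1.1 u.2)
  have hmem : ∀ u x, x ∈ L u ⁻¹' Icc (lo u) (hi u) ↔ InW S.B u.1 (S.c u.1.1 u.2) (R x) :=
    fun u x => Iff.rfl
  have hc : ∀ u : Ty k × Fin N, 0 ≤ S.c u.1.1 u.2 ∧ S.c u.1.1 u.2 ≤ S.B :=
    fun u => ⟨S.c_pos _ _, S.c_le _ _⟩
  have hdisj : ∀ u v, u ≠ v →
      Disjoint (L u ⁻¹' Icc (lo u) (hi u)) (L v ⁻¹' Icc (lo v) (hi v)) := by
    intro u v huv
    rw [Set.disjoint_left]
    intro x hx hx'
    rw [hmem] at hx hx'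
    rcases lt_trichotomy u.1.1 v.1.1 with h1 | h1 | h1
    · exact disj_pivot hB (hc u) (hc v) h1 hx hx'
    · obtain ⟨⟨a, t⟩, i⟩ := u
      obtain ⟨⟨a', t'⟩, i'⟩ := v
      simp only at h1
      subst h1
      refine disj_same hB a t t' ?_ ?_ hx hx'
      · intro h2 h3
        have h4 : i = i' := by
          by_contra h4
          have := S.c_sep a i i' h4
          simp only at h2
          rw [h2, sub_self, abs_zero] at this
          linarith
        subst h3
        subst h4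
        exact huv rfl
      · intro h2
        apply S.c_sep a i i'
        intro h3
        subst h3
        exact h2 rfl
    · exact disj_pivot hB (hc v) (hc u) h1 hx' hx
  have hsub : ∀ u, L u ⁻¹' Icc (lo u) (hi u) ⊆ interior (R ⁻¹' Icc (olo S.B) (ohi S.B)) := by
    intro u x hx
    rw [hmem] at hx
    rw [interior_box]
    exact fun j => hx.outer hB (hc u) j
  let b₀ : Ix k r := Sum.inl (Sum.inl ⟨0, by omega⟩)
  let b₁ : Ix k r := Sum.inl (Sum.inl ⟨1, by omega⟩)
  have hb : b₀ ≠ b₁ := by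
    intro h
    simp only [b₀, b₁, Sum.inl.injEq, Fin.mk.injEq] at h
    omega
  have hcard : Fintype.card (Ty k × Fin N) = Fintype.card (Ty k) * N := by
    rw [Fintype.card_prod, Fintype.card_fin]
  obtain ⟨F, hF⟩ := polyhedron_of_boxes hd b₀ b₁ hb R (olo S.B) (ohi S.B) (olo_lt_ohi S.B hB)
    L lo hi (fun u j => wlo_lt_whi S.B hB u.1 _ j) hdisj hsub n e (by rw [hcard]; exact hn)
  refine ⟨_, F, hF, partition_of_boxes R (olo S.B) (ohi S.B) L lo hi _ rfl hF.compact hF.regular,
    ?_⟩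
  intro m C hC
  -- the test points are in `P`
  have hT : ∀ t : T, R.symm (S.pt t) ∈
      R ⁻¹' Icc (olo S.B) (ohi S.B) \ ⋃ u, interior (L u ⁻¹' Icc (lo u) (hi u)) := by
    intro t
    refine ⟨?_, ?_⟩
    · have hB2 : 1 ≤ S.B ^ 2 := by nlinarith
      have h1 : ∀ j : Ix k r, olo S.B j ≤ S.pt t j ∧ S.pt t j ≤ ohi S.B j := by
        intro j
        rcases j with (b | p) | s
        · simp only [olo, ohi, Sep.pt]
          constructor <;> linarith [S.Z_pos b t, S.Z_lt b t]
        · simp only [olo, ohi, Sep.pt]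
          have e1 := S.Z_pos p.1.1 t
          have e2 := S.Z_pos p.1.2 t
          have e3 := S.Z_lt p.1.1 t
          have e4 := S.Z_lt p.1.2 t
          have e5 := mul_pos e1 e2
          have e6 : S.Z p.1.1 t * S.Z p.1.2 t < S.B ^ 2 := by
            rw [sq]
            exact mul_lt_mul'' e3 e4 e1.le e2.le
          constructor <;> linarith
        · simp only [olo, ohi, Sep.pt]
          constructor <;> linarith
      rw [mem_preimage, ContinuousLinearEquiv.apply_symm_apply]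
      exact ⟨fun j => (h1 j).1, fun j => (h1 j).2⟩
    · intro h
      obtain ⟨u, hu⟩ := mem_iUnion.1 h
      have h1 := (hmem u _).1 (interior_subset hu)
      rw [ContinuousLinearEquiv.apply_symm_apply] at h1
      have h2 := h1.z_pivot
      have h3 := S.far u.1.1 t u.2
      have h4 : 1 / (64 * S.B) ≤ 1 / 64 := by
        apply one_div_le_one_div_of_le (by norm_num)
        linarith
      have h6 : |S.Z u.1.1 t - S.c u.1.1 u.2| ≤ 1 / (64 * S.B) := h2
      linarith
  -- two test points are not in one piece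
  have hconv : ∀ j, Convex ℝ (C j) := by
    intro j
    obtain ⟨⟨V, _, hV⟩, _⟩ := hC.polytope j
    rw [hV]
    exact convex_convexHull ℝ _
  have hsubP : ∀ j, C j ⊆
      R ⁻¹' Icc (olo S.B) (ohi S.B) \ ⋃ u, interior (L u ⁻¹' Icc (lo u) (hi u)) := by
    intro j
    have h1 : C j ⊆ ⋃ i, C i := subset_iUnion C j
    rwa [hC.union] at h1
  have key : ∀ (j : Fin m) (p q : T) (a : Fin k) (i : Fin N),
      (∀ b, b < a → S.Z b p = S.Z b q) → (∀ b, a < b → 1 ≤ |S.Z b p - S.Z b q|) →
      S.Z a p < S.c a i → S.c a i < S.Z a q →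
      R.symm (S.pt p) ∈ C j → R.symm (S.pt q) ∈ C j → False := by
    intro j p q a i h1 h2 h3 h4 hp hq
    obtain ⟨w, t, ht0, ht1, hw, hx⟩ := S.blocked (r := r) p q a i h1 h2 h3 h4
    have h5 : (1 - t) • R.symm (S.pt p) + t • R.symm (S.pt q) ∈ C j :=
      hconv j hp hq (by linarith) ht0 (by ring)
    have h6 := (hsubP j h5).2
    apply h6
    refine mem_iUnion.2 ⟨(w, i), ?_⟩
    rw [interior_box]
    intro e
    have h7 : R ((1 - t) • R.symm (S.pt p) + t • R.symm (S.pt q)) =
        (1 - t) • S.pt p + t • S.pt q := by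
      rw [map_add, map_smul, map_smul, ContinuousLinearEquiv.apply_symm_apply,
        ContinuousLinearEquiv.apply_symm_apply]
    rw [hL, h7]
    have h8 := hx e
    simp only [lo, hi]
    subst hw
    exact h8
  have hex : ∀ t : T, ∃ j, R.symm (S.pt t) ∈ C j := by
    intro t
    have h1 := hT t
    rw [← hC.union] at h1
    exact mem_iUnion.1 h1
  choose f hf using hex
  have hinj : Function.Injective f := by
    intro p q hpq
    by_contra hne
    obtain ⟨a, i, h1, h2, h3⟩ := S.sep p q hne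
    have hp := hf p
    have hq := hf q
    rw [← hpq] at hq
    rcases h3 with ⟨h3, h4⟩ | ⟨h3, h4⟩
    · exact key _ p q a i h1 h2 h3 h4 hp hq
    · refine key _ q p a i (fun b hb => (h1 b hb).symm) ?_ h3 h4 hq hp
      intro b hb
      rw [abs_sub_comm]
      exact h2 b hb
  have := Fintype.card_le_of_injective f hinj
  rwa [Fintype.card_fin] at this

/-! ### The separating system of digit vectors -/

section digits

variable {k N : ℕ}

/-- The number with the digits `t 0, ..., t (b - 1)`. -/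
def dig (b : Fin k) (t : Fin k → Fin N) : Fin (N ^ (b : ℕ)) :=
  finFunctionFinEquiv fun i : Fin (b : ℕ) => t ⟨i, i.2.trans b.2⟩

theorem dig_eq_iff (b : Fin k) (p q : Fin k → Fin N) :
    dig b p = dig b q ↔ ∀ a, a < b → p a = q a := by
  unfold dig
  rw [finFunctionFinEquiv.apply_eq_iff_eq]
  constructor
  · intro h a ha
    exact congrFun h ⟨a, ha⟩
  · intro h
    funext i
    exact h _ (Fin.lt_def.2 i.2)

/-- The coordinate functions. -/
def ZZ (b : Fin k) (t : Fin k → Fin N) : ℕ :=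
  4 * N ^ (b : ℕ) * (t b + 1) + dig b t

/-- The thresholds. -/
def cc (b : Fin k) (i : Fin N) : ℕ := 4 * N ^ (b : ℕ) * (i + 1) + 2 * N ^ (b : ℕ)

theorem ZZ_eq_of (b : Fin k) (p q : Fin k → Fin N) (h : ∀ a, a ≤ b → p a = q a) :
    ZZ b p = ZZ b q := by
  unfold ZZ
  rw [h b le_rfl, (dig_eq_iff b p q).2 fun a ha => h a ha.le]

theorem ZZ_ne (b : Fin k) (p q : Fin k → Fin N) (h : ∃ a, a < b ∧ p a ≠ q a) :
    ZZ b p ≠ ZZ b q := by
  intro he
  have h1 : dig b p = dig b q := by
    apply Fin.ext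
    have hp := (dig b p).2
    have hq := (dig b q).2
    unfold ZZ at he
    have e1 : (4 * N ^ (b : ℕ) * (p b + 1) + dig b p) % N ^ (b : ℕ) = dig b p := by
      have : 4 * N ^ (b : ℕ) * (p b + 1) + dig b p =
          (dig b p : ℕ) + N ^ (b : ℕ) * (4 * (p b + 1)) := by ring
      rw [this, Nat.add_mul_mod_self_left, Nat.mod_eq_of_lt hp]
    have e2 : (4 * N ^ (b : ℕ) * (q b + 1) + dig b q) % N ^ (b : ℕ) = dig b q := by
      have : 4 * N ^ (b : ℕ) * (q b + 1) + dig b q =
          (dig b q : ℕ) + N ^ (b : ℕ) * (4 * (q b + 1)) := by ring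
      rw [this, Nat.add_mul_mod_self_left, Nat.mod_eq_of_lt hq]
    rw [← e1, ← e2, he]
  obtain ⟨a, ha, hne⟩ := h
  exact hne ((dig_eq_iff b p q).1 h1 a ha)

theorem pow_facts (hN : 0 < N) (b : Fin k) : 1 ≤ N ^ (b : ℕ) ∧ N ^ (b : ℕ) ≤ N ^ k :=
  ⟨Nat.one_le_pow _ _ hN, Nat.pow_le_pow_right hN b.2.le⟩

theorem ZZ_lt (hN : 0 < N) (b : Fin k) (t : Fin k → Fin N) : ZZ b t < 4 * N ^ k * (N + 2) := by
  obtain ⟨h1, h2⟩ := pow_facts hN b
  have h3 := (dig b t).2
  have h4 := (t b).2
  unfold ZZ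
  have h5 : 4 * N ^ (b : ℕ) * (t b + 1) ≤ 4 * N ^ k * N := by
    apply Nat.mul_le_mul
    · omega
    · omega
  nlinarith

theorem cc_le (hN : 0 < N) (b : Fin k) (i : Fin N) : cc b i ≤ 4 * N ^ k * (N + 2) := by
  obtain ⟨h1, h2⟩ := pow_facts hN b
  have h4 := i.2
  unfold cc
  have h5 : 4 * N ^ (b : ℕ) * (i + 1) ≤ 4 * N ^ k * N := by
    apply Nat.mul_le_mul
    · omega
    · omega
  nlinarith

theorem ZZ_lt_cc (hN : 0 < N) (b : Fin k) (t : Fin k → Fin N) (i : Fin N) (h : t b ≤ i) :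
    ZZ b t + 1 ≤ cc b i := by
  obtain ⟨h1, h2⟩ := pow_facts hN b
  have h3 := (dig b t).2
  have h4 : (t b : ℕ) ≤ i := h
  unfold ZZ cc
  have h5 : 4 * N ^ (b : ℕ) * (t b + 1) ≤ 4 * N ^ (b : ℕ) * (i + 1) :=
    Nat.mul_le_mul_left _ (by omega)
  omega

theorem cc_lt_ZZ (hN : 0 < N) (b : Fin k) (t : Fin k → Fin N) (i : Fin N) (h : i < t b) :
    cc b i + 1 ≤ ZZ b t := by
  obtain ⟨h1, h2⟩ := pow_facts hN b
  have h4 : (i : ℕ) < t b := h
  unfold ZZ cc
  have h5 : 4 * N ^ (b : ℕ) * ((i + 1) + 1) ≤ 4 * N ^ (b : ℕ) * (t b + 1) :=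
    Nat.mul_le_mul_left _ (by omega)
  have h6 : 4 * N ^ (b : ℕ) * ((i + 1) + 1) = 4 * N ^ (b : ℕ) * (i + 1) + 4 * N ^ (b : ℕ) := by
    ring
  omega

theorem cc_sep (hN : 0 < N) (b : Fin k) (i j : Fin N) (h : i < j) : cc b i + 1 ≤ cc b j := by
  obtain ⟨h1, h2⟩ := pow_facts hN b
  have h4 : (i : ℕ) < j := h
  unfold cc
  have h5 : 4 * N ^ (b : ℕ) * ((i + 1) + 1) ≤ 4 * N ^ (b : ℕ) * (j + 1) :=
    Nat.mul_le_mul_left _ (by omega)
  have h6 : 4 * N ^ (b : ℕ) * ((i + 1) + 1) = 4 * N ^ (b : ℕ) * (i + 1) + 4 * N ^ (b : ℕ) := by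
    ring
  omega

/-- The separating system of digit vectors. -/
noncomputable def digitSystem (k N : ℕ) (hN : 0 < N) : Sep k N (Fin k → Fin N) where
  Z b t := ZZ b t
  c b i := cc b i
  B := ((4 * N ^ k * (N + 2) : ℕ) : ℝ)
  one_le_B := by
    have h1 : 1 ≤ N ^ k := Nat.one_le_pow _ _ hN
    have h2 : 1 ≤ 4 * N ^ k * (N + 2) := by nlinarith
    exact_mod_cast h2
  Z_pos b t := by
    obtain ⟨h1, h2⟩ := pow_facts hN b
    have h3 : 0 < ZZ b t := by
      unfold ZZ
      positivity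
    exact_mod_cast h3
  Z_lt b t := by exact_mod_cast ZZ_lt hN b t
  c_pos a i := by positivity
  c_le a i := by exact_mod_cast cc_le hN a i
  c_sep a i j hij := by
    rcases lt_or_gt_of_ne hij with h | h
    · have h1 : ((cc a i : ℕ) : ℝ) + 1 ≤ cc a j := by exact_mod_cast cc_sep hN a i j h
      rw [abs_of_neg (by linarith)]
      linarith
    · have h1 : ((cc a j : ℕ) : ℝ) + 1 ≤ cc a i := by exact_mod_cast cc_sep hN a j i h
      rw [abs_of_pos (by linarith)]
      linarith
  far a t i := by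
    rcases le_or_gt (t a) i with h | h
    · have h1 : ((ZZ a t : ℕ) : ℝ) + 1 ≤ cc a i := by exact_mod_cast ZZ_lt_cc hN a t i h
      rw [abs_of_neg (by linarith)]
      linarith
    · have h1 : ((cc a i : ℕ) : ℝ) + 1 ≤ ZZ a t := by exact_mod_cast cc_lt_ZZ hN a t i h
      rw [abs_of_pos (by linarith)]
      linarith
  sep p q hpq := by
    classical
    -- the first index where `p` and `q` differ
    obtain ⟨b, hb⟩ := Function.ne_iff.1 hpq
    obtain ⟨a, ha, hmin⟩ := WellFounded.has_min (wellFounded_lt (α := Fin k))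
      {b | p b ≠ q b} ⟨b, hb⟩
    have hlow : ∀ b, b < a → p b = q b := by
      intro b hb
      by_contra hne
      exact hmin b hne hb
    have key : ∀ p q : Fin k → Fin N, (∀ b, b < a → p b = q b) → p a < q a →
        (∀ b, b < a → ((ZZ b p : ℕ) : ℝ) = ZZ b q) ∧
        (∀ b, a < b → 1 ≤ |((ZZ b p : ℕ) : ℝ) - ZZ b q|) ∧
        (((ZZ a p : ℕ) : ℝ) < cc a (p a) ∧ ((cc a (p a) : ℕ) : ℝ) < ZZ a q) := by
      intro p q hlow hlt
      refine ⟨?_, ?_, ?_, ?_⟩
      · intro b hb
        rw [ZZ_eq_of b p q fun c hc => hlow c (lt_of_le_of_lt hc hb)]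
      · intro b hb
        have h1 := ZZ_ne b p q ⟨a, hb, hlt.ne⟩
        rcases lt_or_gt_of_ne h1 with h2 | h2
        · have h3 : ((ZZ b p : ℕ) : ℝ) + 1 ≤ ZZ b q := by exact_mod_cast h2
          rw [abs_of_neg (by linarith)]
          linarith
        · have h3 : ((ZZ b q : ℕ) : ℝ) + 1 ≤ ZZ b p := by exact_mod_cast h2
          rw [abs_of_pos (by linarith)]
          linarith
      · have h1 : ((ZZ a p : ℕ) : ℝ) + 1 ≤ cc a (p a) := by
          exact_mod_cast ZZ_lt_cc hN a p (p a) le_rfl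
        linarith
      · have h1 : ((cc a (p a) : ℕ) : ℝ) + 1 ≤ ZZ a q := by
          exact_mod_cast cc_lt_ZZ hN a q (p a) hlt
        linarith
    have hne : p a ≠ q a := ha
    rcases lt_or_gt_of_ne hne with h | h
    · obtain ⟨h1, h2, h3⟩ := key p q hlow h
      exact ⟨a, p a, h1, h2, Or.inl h3⟩
    · obtain ⟨h1, h2, h3⟩ := key q p (fun b hb => (hlow b hb).symm) h
      refine ⟨a, q a, fun b hb => (h1 b hb).symm, ?_, Or.inr h3⟩
      intro b hb
      rw [abs_sub_comm]
      exact h2 b hb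

end digits

/-- The number of pairs. -/
theorem card_Pr (k : ℕ) : Fintype.card (Pr k) = k * (k - 1) / 2 := by
  classical
  let f : Pr k ≃ (Σ b : Fin k, Fin (b : ℕ)) :=
    { toFun := fun p => ⟨p.1.2, ⟨p.1.1, p.2⟩⟩
      invFun := fun s => ⟨(⟨s.2, s.2.2.trans s.1.2⟩, s.1), s.2.2⟩
      left_inv := fun p => rfl
      right_inv := fun s => rfl }
  rw [Fintype.card_congr f, Fintype.card_sigma]
  simp only [Fintype.card_fin]
  rw [Fin.sum_univ_eq_sum_range (fun i => i) k, Finset.sum_range_id]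

/-- For every `k ≥ 2` and every `d ≥ k (k + 1) / 2` there are a constant `c > 0` and an `n₀` such
that for every `n ≥ n₀` there is a polyhedron `P` in `ℝ^d` with exactly `n` faces which has a
convex partition, and all of whose convex partitions have at least `c n ^ k` pieces. -/
theorem result (k d : ℕ) (hk : 2 ≤ k) (hd : k * (k + 1) / 2 ≤ d) :
    ∃ c : ℝ, 0 < c ∧ ∃ n₀ : ℕ, ∀ n : ℕ, n₀ ≤ n →
      ∃ (P : Set (EuclideanSpace ℝ (Fin d))) (F : Fin n → Set (EuclideanSpace ℝ (Fin d))),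
        IsPolyhedron P F ∧
        (∃ (m : ℕ) (C : Fin m → Set (EuclideanSpace ℝ (Fin d))), IsConvexPartition P C) ∧
        ∀ (m : ℕ) (C : Fin m → Set (EuclideanSpace ℝ (Fin d))), IsConvexPartition P C →
          c * (n : ℝ) ^ k ≤ m := by
  classical
  obtain ⟨K, hK⟩ : ∃ K, K = Fintype.card (Ty k) := ⟨_, rfl⟩
  have hK0 : 0 < K := by
    rw [hK]
    exact Fintype.card_pos_iff.2 ⟨⟨⟨0, by omega⟩, fun _ => true⟩⟩
  have hk1 : k * (k + 1) / 2 = k + k * (k - 1) / 2 := by
    obtain ⟨j, rfl⟩ : ∃ j, k = j + 1 := ⟨k - 1, by omega⟩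
    have h1 : (j + 1) * (j + 1 + 1) = (j + 1) * (j + 1 - 1) + (j + 1) * 2 := by
      rw [Nat.add_sub_cancel]
      ring
    rw [h1, Nat.add_mul_div_right _ _ (by norm_num)]
    ring
  obtain ⟨r, hr⟩ : ∃ r, d = k + k * (k - 1) / 2 + r := ⟨d - (k + k * (k - 1) / 2), by omega⟩
  have hcard : Fintype.card (Ix k r) = d := by
    rw [Fintype.card_sum, Fintype.card_sum, Fintype.card_fin, Fintype.card_fin, card_Pr, hr]
  have hd0 : 0 < d := by omega
  obtain ⟨D, hD⟩ : ∃ D, D = 2 * d * K := ⟨_, rfl⟩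
  have hD0 : 0 < D := by rw [hD]; positivity
  refine ⟨(1 / (4 * (D : ℝ))) ^ k, by positivity, 4 * d + 4 * D, ?_⟩
  intro n hn
  obtain ⟨N, hN⟩ : ∃ N, N = (n - 2 * d) / D := ⟨_, rfl⟩
  obtain ⟨e, he⟩ : ∃ e, e = (n - 2 * d) % D := ⟨_, rfl⟩
  have h1 : D * N + e = n - 2 * d := by
    rw [hN, he]
    exact Nat.div_add_mod _ _
  have h2 : e < D := by
    rw [he]
    exact Nat.mod_lt _ hD0
  have h3 : n = 2 * d * (K * N) + 2 * d + e := by
    have h4 : 2 * d * (K * N) = D * N := by rw [hD]; ring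
    omega
  -- `4 D N ≥ n`
  have h5 : n ≤ 4 * (D * N) := by omega
  have hNpos : 0 < N := by
    rcases Nat.eq_zero_or_pos N with h6 | h6
    · rw [h6] at h5
      simp at h5
      omega
    · exact h6
  rw [hK] at h3
  obtain ⟨P, F, hP, hex, hm⟩ := geom hcard hk (digitSystem k N hNpos) n e h3
  refine ⟨P, F, hP, hex, ?_⟩
  intro m C hC
  have h7 := hm m C hC
  rw [Fintype.card_fun, Fintype.card_fin, Fintype.card_fin] at h7
  have h8 : (n : ℝ) ≤ 4 * (D : ℝ) * N := by
    have : ((n : ℕ) : ℝ) ≤ ((4 * (D * N) : ℕ) : ℝ) := by exact_mod_cast h5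
    push_cast at this
    linarith
  have h9 : 1 / (4 * (D : ℝ)) * n ≤ N := by
    have hD0' : (0 : ℝ) < D := by exact_mod_cast hD0
    rw [div_mul_eq_mul_div, one_mul, div_le_iff₀ (by positivity)]
    linarith
  calc (1 / (4 * (D : ℝ))) ^ k * (n : ℝ) ^ k = (1 / (4 * (D : ℝ)) * n) ^ k := by rw [mul_pow]
    _ ≤ (N : ℝ) ^ k := by
        apply pow_le_pow_left₀ (by positivity) h9
    _ ≤ m := by exact_mod_cast h7

end Pool.Agent.Results.MP_a2955b_co.SuperQuadratic
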